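import Pool.Agent.Helper94.UF.Main

/-! Normed spaces which embed isomorphically into `X`. -/

open scoped ContDiff NNReal
open Set Filter Topology

namespace Pool.Agent.Helper94.UF

set_option linter.unusedSectionVars false

variable {Γ ι : Type*} {Z : Type*} [NormedAddCommGroup Z] [NormedSpace ℝ Z]
variable {X : Type*} [NormedAddCommGroup X] [NormedSpace ℝ X]

/-- The values whose infimum is the extended norm. -/
noncomputable def extVal (T : X →L[ℝ] Z) (C : ℝ) (z : Z) (x : X) : ℝ := ‖x‖ + C * ‖z - T x‖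

theorem extVal_nonneg (T : X →L[ℝ] Z) {C : ℝ} (hC : 0 ≤ C) (z : Z) (x : X) :
    0 ≤ extVal T C z x := by unfold extVal; positivity

theorem extVal_bdd (T : X →L[ℝ] Z) {C : ℝ} (hC : 0 ≤ C) (z : Z) :
    BddBelow (range (extVal T C z)) := ⟨0, by rintro _ ⟨x, rfl⟩; exact extVal_nonneg T hC z x⟩

/-- The extended norm on `c_0(Γ)`. -/
noncomputable def extNorm (T : X →L[ℝ] Z) (C : ℝ) (hC : 0 ≤ C) : Seminorm ℝ Z :=
  Seminorm.of (fun z => ⨅ x, extVal T C z x)
    (by
      intro z w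
      rw [← sub_le_iff_le_add']
      refine le_ciInf fun (y : X) => ?_
      rw [sub_le_iff_le_add', ← sub_le_iff_le_add]
      refine le_ciInf fun (x : X) => ?_
      rw [sub_le_iff_le_add]
      refine (ciInf_le (extVal_bdd T hC _) (x + y)).trans ?_
      unfold extVal
      have h1 : ‖z + w - T (x + y)‖ ≤ ‖z - T x‖ + ‖w - T y‖ := by
        have : z + w - T (x + y) = (z - T x) + (w - T y) := by rw [map_add]; abel
        rw [this]; exact norm_add_le _ _
      have h2 := norm_add_le x y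
      nlinarith)
    (by
      intro a z
      have hle : ∀ (a : ℝ) (z : Z), (⨅ x, extVal T C (a • z) x) ≤ ‖a‖ * ⨅ x, extVal T C z x := by
        intro a z
        rw [Real.mul_iInf_of_nonneg (norm_nonneg a)]
        refine le_ciInf fun x => ?_
        refine (ciInf_le (extVal_bdd T hC _) (a • x)).trans_eq ?_
        unfold extVal
        have h0 : a • z - T (a • x) = a • (z - T x) := by
          rw [map_smul, smul_sub]
        rw [h0, norm_smul, norm_smul]
        ring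
      refine le_antisymm (hle a z) ?_
      by_cases ha : a = 0
      · rw [ha, norm_zero, zero_mul]
        exact Real.iInf_nonneg fun x => extVal_nonneg T hC _ x
      · have h1 := hle a⁻¹ (a • z)
        rw [smul_smul, inv_mul_cancel₀ ha, one_smul, norm_inv] at h1
        have h2 : 0 < ‖a‖ := norm_pos_iff.2 ha
        calc ‖a‖ * ⨅ x, extVal T C z x ≤ ‖a‖ * (‖a‖⁻¹ * ⨅ x, extVal T C (a • z) x) := by gcongr
          _ = ⨅ x, extVal T C (a • z) x := by rw [← mul_assoc, mul_inv_cancel₀ h2.ne', one_mul])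

theorem extNorm_apply (T : X →L[ℝ] Z) (C : ℝ) (hC : 0 ≤ C) (z : Z) :
    extNorm T C hC z = ⨅ x, extVal T C z x := rfl

theorem extNorm_le (T : X →L[ℝ] Z) (C : ℝ) (hC : 0 ≤ C) (z : Z) (x : X) :
    extNorm T C hC z ≤ ‖x‖ + C * ‖z - T x‖ := ciInf_le (extVal_bdd T hC z) x

theorem extNorm_le_mul (T : X →L[ℝ] Z) (C : ℝ) (hC : 0 ≤ C) (z : Z) :
    extNorm T C hC z ≤ C * ‖z‖ := by
  simpa using extNorm_le T C hC z 0

theorem norm_le_extNorm (T : X →L[ℝ] Z) (C : ℝ) (hC : 1 ≤ C) (z : Z) :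
    ‖z‖ ≤ (‖T‖ + 1) * extNorm T C (zero_le_one.trans hC) z := by
  have hT : 0 < ‖T‖ + 1 := by positivity
  rw [← inv_mul_le_iff₀ hT]
  refine le_ciInf fun x => ?_
  rw [inv_mul_le_iff₀ hT]
  unfold extVal
  have h1 : ‖z‖ ≤ ‖z - T x‖ + ‖T x‖ := by
    have := norm_add_le (z - T x) (T x); simpa using this
  have h2 := T.le_opNorm x
  have h3 : 0 ≤ ‖z - T x‖ := norm_nonneg _
  have h4 : 0 ≤ ‖x‖ := norm_nonneg _
  have h5 : 0 ≤ ‖T‖ := ContinuousLinearMap.opNorm_nonneg T
  have h6 : ‖z - T x‖ ≤ C * ‖z - T x‖ := by nlinarith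
  nlinarith [mul_nonneg h5 (mul_nonneg (zero_le_one.trans hC) h3)]

theorem extNorm_map (T : X →L[ℝ] Z) (C : ℝ) (hC : 0 ≤ C) {c : ℝ}
    (hT : ∀ x, c * ‖x‖ ≤ ‖T x‖) (hcC : 1 ≤ C * c) (x : X) : extNorm T C hC (T x) = ‖x‖ := by
  refine le_antisymm (by simpa using extNorm_le T C hC (T x) x) ?_
  refine le_ciInf fun y => ?_
  unfold extVal
  rw [← map_sub]
  have h1 := hT (x - y)
  have h2 : ‖x‖ ≤ ‖x - y‖ + ‖y‖ := by
    have := norm_add_le (x - y) y; simpa using this
  have h3 : 0 ≤ ‖x - y‖ := norm_nonneg _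
  have h4 : C * (c * ‖x - y‖) ≤ C * ‖T (x - y)‖ := by gcongr
  nlinarith

/-- **Every normed space which embeds into `Z` has property `(*^k)` with every constant
larger than one.** -/
theorem star_of_embedding {k : WithTop ℕ∞} (E : UFDD Z ι) (K : EK k Z Γ) (hk : k ≤ ∞)
    (T : X →L[ℝ] Z) {c : ℝ} (hc : 0 < c)
    (hT : ∀ x, c * ‖x‖ ≤ ‖T x‖) {C₀ : ℝ} (hC₀ : 1 < C₀) {f : X → ℝ} {Λ : ℝ} (hΛ : 0 ≤ Λ)
    (hf : ∀ x y, |f x - f y| ≤ Λ * ‖x - y‖) {ϵ : ℝ} (hϵ : 0 < ϵ) :
    ∃ h : X → ℝ, ContDiff ℝ k h ∧ (∀ x y, |h x - h y| ≤ C₀ * Λ * ‖x - y‖) ∧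
      ∀ x, |f x - h x| < ϵ := by
  set C : ℝ := max 1 c⁻¹ with hCd
  have hC1 : 1 ≤ C := le_max_left _ _
  have hC : 0 ≤ C := zero_le_one.trans hC1
  have hcC : 1 ≤ C * c := by
    calc (1 : ℝ) = c⁻¹ * c := (inv_mul_cancel₀ hc.ne').symm
      _ ≤ C * c := by gcongr; exact le_max_right _ _
  set p : Seminorm ℝ Z := extNorm T C hC with hp
  have hpT : ∀ x, p (T x) = ‖x‖ := fun x => extNorm_map T C hC hT hcC x
  set M : ℝ := max C (‖T‖ + 1) with hM
  have hM0 : 0 < M := lt_of_lt_of_le one_pos (hC1.trans (le_max_left _ _))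
  have hp1 : ∀ z, p z ≤ M * ‖z‖ := fun z =>
    (extNorm_le_mul T C hC z).trans (by gcongr; exact le_max_left _ _)
  have hp2 : ∀ z, ‖z‖ ≤ M * p z := fun z =>
    (norm_le_extNorm T C hC1 z).trans
      (mul_le_mul_of_nonneg_right (le_max_right _ _) (apply_nonneg p z))
  -- McShane extension
  set g : Z → ℝ := fun z => ⨅ x, (f x + Λ * p (z - T x)) with hg
  have hlow : ∀ z x x0, f x0 - Λ * p (z - T x0) ≤ f x + Λ * p (z - T x) := by
    intro z x x0
    have h1 := (abs_le.1 (hf x x0)).1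
    have h2 : ‖x - x0‖ ≤ p (z - T x) + p (z - T x0) := by
      rw [← hpT, map_sub]
      have : T x - T x0 = (z - T x0) - (z - T x) := by abel
      rw [this]
      exact (map_sub_le_add p _ _).trans_eq (add_comm _ _)
    nlinarith
  have hbdd : ∀ z, BddBelow (range fun x => f x + Λ * p (z - T x)) := fun z =>
    ⟨f 0 - Λ * p (z - T 0), by rintro _ ⟨x, rfl⟩; exact hlow z x 0⟩
  have hgT : ∀ x, g (T x) = f x := by
    intro x
    refine le_antisymm ?_ ?_
    · refine (ciInf_le (hbdd (T x)) x).trans_eq ?_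
      simp
    · refine le_ciInf fun y => ?_
      have := hlow (T x) y x
      simpa using this
  have hgl : ∀ z w, g z ≤ g w + Λ * p (z - w) := by
    intro z w
    rw [← sub_le_iff_le_add]
    refine le_ciInf fun x => ?_
    rw [sub_le_iff_le_add]
    refine (ciInf_le (hbdd z) x).trans ?_
    have h1 : p (z - T x) ≤ p (w - T x) + p (z - w) := by
      have : z - T x = (w - T x) + (z - w) := by abel
      rw [this]; exact map_add_le_add p _ _
    nlinarith
  have hgL : ∀ z w, |g z - g w| ≤ Λ * p (z - w) := by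
    intro z w
    rw [abs_sub_le_iff]
    refine ⟨by linarith [hgl z w], ?_⟩
    have := hgl w z
    rw [map_sub_rev] at this
    linarith
  obtain ⟨h, h1, h2, h3⟩ := main_seminorm E K hk hM0 hp1 hp2 hC₀ hΛ hgL hϵ
  refine ⟨fun x => h (T x), h1.comp T.contDiff, fun x y => ?_, fun x => ?_⟩
  · refine (h2 _ _).trans_eq ?_
    rw [← map_sub, hpT]
  · have := h3 (T x)
    rwa [hgT] at this

end Pool.Agent.Helper94.UF
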