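import Pool.Agent.Helper94.UF.Code

/-! The averaged map `F` and its Lipschitz estimate. -/

open Set Filter Topology MeasureTheory

namespace Pool.Agent.Helper94.UF

set_option linter.unusedSectionVars false

variable {Γ : Type*}

/-- The code at logarithmic scale `u`. -/
noncomputable def cu (δ : ℝ) (φ : Γ → ℝ) (u : ℝ) : Cd Γ := code (δ * Real.exp u) φ

theorem cu_anti {δ : ℝ} (hδ : 0 < δ) {φ : Γ → ℝ} (hφ : IsC0 φ) {u v : ℝ} (h : u ≤ v) :
    cu δ φ v ⊆ cu δ φ u := code_anti hφ (by positivity) (by gcongr)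

theorem cu_close {δ : ℝ} (hδ : 0 < δ) {φ φ' : Γ → ℝ} (hφ : IsC0 φ) (hφ' : IsC0 φ') {τ κ u : ℝ}
    (hτ : 0 ≤ τ) (h : ∀ γ, |φ γ - φ' γ| ≤ τ) (hκ : τ ≤ δ * Real.exp u * κ) :
    cu δ φ' (u + κ) ⊆ cu δ φ u := by
  have h0 : 0 < δ * Real.exp u := by positivity
  have h1 : δ * Real.exp u + τ ≤ δ * Real.exp (u + κ) := by
    have h2 : κ + 1 ≤ Real.exp κ := Real.add_one_le_exp κ
    rw [Real.exp_add, ← mul_assoc]
    nlinarith
  unfold cu
  refine (code_anti hφ' (by linarith) h1).trans ?_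
  exact code_close hφ' hφ h0 hτ fun γ => by rw [abs_sub_comm]; exact h γ

/-- Comparison of integrals of antitone functions under a small shift. -/
theorem shift_cmp {g h : ℝ → ℝ} (hg : Antitone g) (hh : Antitone h) (h0 : ∀ u, 0 ≤ h u)
    (h1 : ∀ u, h u ≤ 1) {κ a b : ℝ} (hκ : 0 ≤ κ) (hab : a ≤ b)
    (hcmp : ∀ u ∈ Icc a b, h (u + κ) ≤ g u) : ∫ u in a..b, h u ≤ (∫ u in a..b, g u) + κ := by
  have hi : ∀ c d, IntervalIntegrable h volume c d := fun c d => hh.intervalIntegrable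
  have hs : Antitone fun u => h (u + κ) := fun x y hxy => hh (by linarith)
  have e0 : ∫ u in a..b, h (u + κ) ≤ ∫ u in a..b, g u :=
    intervalIntegral.integral_mono_on hab hs.intervalIntegrable hg.intervalIntegrable hcmp
  rw [intervalIntegral.integral_comp_add_right] at e0
  have e1 : (∫ u in a..(a + κ), h u) + ∫ u in (a + κ)..(b + κ), h u = ∫ u in a..(b + κ), h u :=
    intervalIntegral.integral_add_adjacent_intervals (hi _ _) (hi _ _)
  have e2 : (∫ u in a..b, h u) + ∫ u in b..(b + κ), h u = ∫ u in a..(b + κ), h u :=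
    intervalIntegral.integral_add_adjacent_intervals (hi _ _) (hi _ _)
  have e3 : ∫ u in a..(a + κ), h u ≤ κ := by
    have : ∫ u in a..(a + κ), h u ≤ ∫ _u in a..(a + κ), (1 : ℝ) :=
      intervalIntegral.integral_mono_on (by linarith) (hi _ _) intervalIntegrable_const
        fun u _ => h1 u
    rw [intervalIntegral.integral_const, smul_eq_mul, mul_one] at this
    linarith
  have e4 : 0 ≤ ∫ u in b..(b + κ), h u :=
    intervalIntegral.integral_nonneg (by linarith) fun u _ => h0 u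
  linarith

variable {X : Type*} [NormedAddCommGroup X] [NormedSpace ℝ X] {ι : Type*}

/-- A norming functional for a seminorm. -/
theorem exists_norming {E : Type*} [AddCommGroup E] [Module ℝ E] (p : Seminorm ℝ E) (v : E) :
    ∃ φ : E →ₗ[ℝ] ℝ, φ v = p v ∧ ∀ w, φ w ≤ p w := by
  by_cases hv : v = 0
  · exact ⟨0, by simp [hv], fun w => by simp⟩
  · let f : E →ₗ.[ℝ] ℝ := LinearPMap.mkSpanSingleton v (p v) hv
    obtain ⟨g, hg1, hg2⟩ := exists_extension_of_le_sublinear f p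
      (fun c hc x => by rw [map_smul_eq_mul, Real.norm_eq_abs, abs_of_pos hc])
      (fun x y => map_add_le_add p x y) (by
        rintro ⟨x, hx⟩
        obtain ⟨c, rfl⟩ := Submodule.mem_span_singleton.1 hx
        change LinearPMap.mkSpanSingleton v (p v) hv ⟨c • v, hx⟩ ≤ p (c • v)
        rw [LinearPMap.mkSpanSingleton'_apply, smul_eq_mul]
        change c * p v ≤ p (c • v)
        rw [map_smul_eq_mul, Real.norm_eq_abs]
        exact mul_le_mul_of_nonneg_right (le_abs_self c) (apply_nonneg p v))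
    refine ⟨g, ?_, hg2⟩
    have h1 : v ∈ f.domain := Submodule.mem_span_singleton_self v
    have h2 := hg1 ⟨v, h1⟩
    have h3 : f ⟨v, h1⟩ = p v := LinearPMap.mkSpanSingleton'_apply_self _ _ _ _
    rw [← h3, ← h2]

variable {k : WithTop ℕ∞} {E : UFDD X ι} {K : EK k X Γ} {p : Seminorm ℝ X} {M ε : ℝ}

open Classical in
/-- The average of the indicators of the sets attached to a code. -/
noncomputable def pr (D : Fam E K p ε) (A : Cd Γ) (β : ι) : ℝ :=
  (D.m : ℝ)⁻¹ * ∑ j ∈ Finset.range D.m, if β ∈ D.S j A then (1 : ℝ) else 0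

variable (D : Fam E K p ε)

theorem m_pos : (0 : ℝ) < D.m := by exact_mod_cast D.m0

theorem pr_nonneg (A : Cd Γ) (β : ι) : 0 ≤ pr D A β := by
  have := m_pos D
  refine mul_nonneg (inv_nonneg.2 this.le) (Finset.sum_nonneg fun j _ => ?_)
  split_ifs <;> norm_num

theorem pr_le_one (A : Cd Γ) (β : ι) : pr D A β ≤ 1 := by
  classical
  have hm := m_pos D
  have h : ∑ j ∈ Finset.range D.m, (if β ∈ D.S j A then (1 : ℝ) else 0) ≤ D.m := by
    calc ∑ j ∈ Finset.range D.m, (if β ∈ D.S j A then (1 : ℝ) else 0)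
        ≤ ∑ _j ∈ Finset.range D.m, (1 : ℝ) :=
          Finset.sum_le_sum fun j _ => by split_ifs <;> norm_num
      _ = D.m := by simp
  calc pr D A β ≤ (D.m : ℝ)⁻¹ * D.m := mul_le_mul_of_nonneg_left h (inv_nonneg.2 hm.le)
    _ = 1 := inv_mul_cancel₀ hm.ne'

theorem pr_mono {A' A : Cd Γ} (h : A' ⊆ A) (β : ι) : pr D A' β ≤ pr D A β := by
  classical
  have hm := m_pos D
  refine mul_le_mul_of_nonneg_left (Finset.sum_le_sum fun j hj => ?_) (inv_nonneg.2 hm.le)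
  have hsub := D.mono_A (Γ := Γ) E K h (Finset.mem_range.1 hj).le
  by_cases h1 : β ∈ D.S j A'
  · rw [if_pos h1, if_pos (hsub h1)]
  · rw [if_neg h1]; split_ifs <;> norm_num

theorem pr_one {A : Cd Γ} {β : ι} (h : β ∈ D.S 0 A) : pr D A β = 1 := by
  classical
  have hm := m_pos D
  have : ∀ j ∈ Finset.range D.m, (if β ∈ D.S j A then (1 : ℝ) else 0) = 1 := fun j _ =>
    if_pos (D.mono_j A (Nat.zero_le j) h)
  rw [pr, Finset.sum_congr rfl this, Finset.sum_const, Finset.card_range, nsmul_eq_mul, mul_one]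
  exact inv_mul_cancel₀ hm.ne'

theorem pr_zero {A : Cd Γ} {β : ι} (h : β ∉ D.S D.m A) : pr D A β = 0 := by
  classical
  have : ∀ j ∈ Finset.range D.m, (if β ∈ D.S j A then (1 : ℝ) else 0) = 0 := fun j hj =>
    if_neg fun h' => h (D.mono_j A (Finset.mem_range.1 hj).le h')
  rw [pr, Finset.sum_congr rfl this, Finset.sum_const_zero, mul_zero]

theorem Mu_pr {A : Cd Γ} {S : Finset ι} (hS : D.S D.m A ⊆ S) (x : X) :
    E.Mu S (pr D A) x = (D.m : ℝ)⁻¹ • ∑ j ∈ Finset.range D.m, E.P (D.S j A) x := by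
  classical
  rw [E.Mu_apply]
  have h1 : ∀ β ∈ S, pr D A β • E.π β x = (D.m : ℝ)⁻¹ • ∑ j ∈ Finset.range D.m,
      if β ∈ D.S j A then E.π β x else 0 := by
    intro β _
    rw [pr, mul_smul, Finset.sum_smul]
    congr 1
    refine Finset.sum_congr rfl fun j _ => ?_
    split_ifs
    · rw [one_smul]
    · rw [zero_smul]
  rw [Finset.sum_congr rfl h1, ← Finset.smul_sum, Finset.sum_comm]
  congr 1
  refine Finset.sum_congr rfl fun j hj => ?_
  rw [E.P_apply, Finset.sum_ite_mem,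
    Finset.inter_eq_right.2 ((D.mono_j A (Finset.mem_range.1 hj).le).trans hS)]

variable {δ L : ℝ} {φ φ' : Γ → ℝ}

theorem pr_cu_anti (hδ : 0 < δ) (hφ : IsC0 φ) (β : ι) : Antitone fun u => pr D (cu δ φ u) β :=
  fun _ _ h => pr_mono D (cu_anti hδ hφ h) β

/-- The weight of a block. -/
noncomputable def wt (δ L : ℝ) (φ : Γ → ℝ) (β : ι) : ℝ :=
  L⁻¹ * ∫ u in (0 : ℝ)..L, pr D (cu δ φ u) β

theorem wt_nonneg (hL : 0 < L) (β : ι) : 0 ≤ wt D δ L φ β :=
  mul_nonneg (inv_nonneg.2 hL.le)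
    (intervalIntegral.integral_nonneg hL.le fun _ _ => pr_nonneg D _ β)

theorem wt_le_one (hδ : 0 < δ) (hL : 0 < L) (hφ : IsC0 φ) (β : ι) : wt D δ L φ β ≤ 1 := by
  have h : ∫ u in (0 : ℝ)..L, pr D (cu δ φ u) β ≤ ∫ _u in (0 : ℝ)..L, (1 : ℝ) :=
    intervalIntegral.integral_mono_on hL.le (pr_cu_anti D hδ hφ β).intervalIntegrable
      intervalIntegrable_const fun u _ => pr_le_one D _ β
  rw [intervalIntegral.integral_const, sub_zero, smul_eq_mul, mul_one] at h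
  calc wt D δ L φ β ≤ L⁻¹ * L := mul_le_mul_of_nonneg_left h (inv_nonneg.2 hL.le)
    _ = 1 := inv_mul_cancel₀ hL.ne'

theorem wt_eq_zero (hδ : 0 < δ) (hL : 0 < L) (hφ : IsC0 φ) {β : ι}
    (h : β ∉ D.S D.m (cu δ φ 0)) : wt D δ L φ β = 0 := by
  have : ∫ u in (0 : ℝ)..L, pr D (cu δ φ u) β = ∫ _u in (0 : ℝ)..L, (0 : ℝ) :=
    intervalIntegral.integral_congr fun u hu => by
      rw [uIcc_of_le hL.le] at hu
      exact pr_zero D fun h' => h (D.mono_A E K (cu_anti hδ hφ hu.1) le_rfl h')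
  rw [wt, this]
  simp

theorem wt_close (hδ : 0 < δ) (hL : 0 < L) (hφ : IsC0 φ) (hφ' : IsC0 φ') {τ : ℝ} (hτ : 0 ≤ τ)
    (h : ∀ γ, |φ γ - φ' γ| ≤ τ) (β : ι) : |wt D δ L φ β - wt D δ L φ' β| ≤ L⁻¹ * (τ / δ) := by
  have key : ∀ {φ φ' : Γ → ℝ}, IsC0 φ → IsC0 φ' → (∀ γ, |φ γ - φ' γ| ≤ τ) →
      ∫ u in (0 : ℝ)..L, pr D (cu δ φ' u) β ≤ (∫ u in (0 : ℝ)..L, pr D (cu δ φ u) β) + τ / δ := by
    intro φ φ' hφ hφ' h
    refine shift_cmp (pr_cu_anti D hδ hφ β) (pr_cu_anti D hδ hφ' β) (fun u => pr_nonneg D _ β)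
      (fun u => pr_le_one D _ β) (by positivity) hL.le fun u hu => pr_mono D ?_ β
    refine cu_close hδ hφ hφ' hτ h ?_
    have h1 : 1 ≤ Real.exp u := Real.one_le_exp hu.1
    calc τ = δ * 1 * (τ / δ) := by field_simp
      _ ≤ δ * Real.exp u * (τ / δ) := by gcongr
  have h1 := key hφ hφ' h
  have h2 := key hφ' hφ fun γ => by rw [abs_sub_comm]; exact h γ
  rw [wt, wt, ← mul_sub, abs_mul, abs_of_pos (inv_pos.2 hL)]
  refine mul_le_mul_of_nonneg_left ?_ (inv_nonneg.2 hL.le)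
  rw [abs_sub_le_iff]
  constructor <;> linarith

/-- The averaged map. -/
noncomputable def F (δ L : ℝ) (φ : Γ → ℝ) (x : X) : X :=
  E.Mu (D.S D.m (cu δ φ 0)) (wt D δ L φ) x

theorem F_eq (hδ : 0 < δ) (hL : 0 < L) (hφ : IsC0 φ) {S : Finset ι}
    (hS : D.S D.m (cu δ φ 0) ⊆ S) (x : X) : F D δ L φ x = E.Mu S (wt D δ L φ) x :=
  E.Mu_congr hS (fun _ _ => rfl) (fun _ _ h => wt_eq_zero D hδ hL hφ h) x

theorem F_fun_le (hδ : 0 < δ) (hL : 0 < L) (hφ : IsC0 φ) (ψ : X →ₗ[ℝ] ℝ) (x : X) {R : ℝ}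
    (h : ∀ u ∈ Icc (0 : ℝ) L,
      ψ ((D.m : ℝ)⁻¹ • ∑ j ∈ Finset.range D.m, E.P (D.S j (cu δ φ u)) x) ≤ R) :
    ψ (F D δ L φ x) ≤ R := by
  set S := D.S D.m (cu δ φ 0) with hS
  have hint : ∀ β ∈ S, IntervalIntegrable
      (fun u => pr D (cu δ φ u) β * ψ (E.π β x)) volume 0 L := fun β _ =>
    (pr_cu_anti D hδ hφ β).intervalIntegrable.mul_const _
  have h3 : ψ (F D δ L φ x) =
      L⁻¹ * ∫ u in (0 : ℝ)..L, ∑ β ∈ S, pr D (cu δ φ u) β * ψ (E.π β x) := by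
    rw [intervalIntegral.integral_finsetSum hint, Finset.mul_sum, F, E.Mu_apply, map_sum]
    refine Finset.sum_congr rfl fun β _ => ?_
    rw [map_smul, smul_eq_mul, intervalIntegral.integral_mul_const, wt]
    ring
  have h4 : ∀ u ∈ Icc (0 : ℝ) L, ∑ β ∈ S, pr D (cu δ φ u) β * ψ (E.π β x) ≤ R := by
    intro u hu
    have h5 : ∑ β ∈ S, pr D (cu δ φ u) β * ψ (E.π β x) =
        ψ ((D.m : ℝ)⁻¹ • ∑ j ∈ Finset.range D.m, E.P (D.S j (cu δ φ u)) x) := by
      rw [← Mu_pr D (S := S) (D.mono_A E K (cu_anti hδ hφ hu.1) le_rfl), E.Mu_apply, map_sum]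
      refine Finset.sum_congr rfl fun β _ => ?_
      rw [map_smul, smul_eq_mul]
    rw [h5]
    exact h u hu
  have hsumint : IntervalIntegrable
      (fun u => ∑ β ∈ S, pr D (cu δ φ u) β * ψ (E.π β x)) volume 0 L := by
    have := IntervalIntegrable.sum S hint
    simpa only [Finset.sum_fn] using this
  have h7 : ∫ u in (0 : ℝ)..L, ∑ β ∈ S, pr D (cu δ φ u) β * ψ (E.π β x) ≤
      ∫ _u in (0 : ℝ)..L, R :=
    intervalIntegral.integral_mono_on hL.le hsumint intervalIntegrable_const h4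
  rw [intervalIntegral.integral_const, sub_zero, smul_eq_mul] at h7
  rw [h3]
  calc L⁻¹ * _ ≤ L⁻¹ * (L * R) := by gcongr
    _ = R := by rw [← mul_assoc, inv_mul_cancel₀ hL.ne', one_mul]

theorem p_F_le (hδ : 0 < δ) (hL : 0 < L) (hφ : IsC0 φ) (x : X) :
    p (F D δ L φ x) ≤ (1 + ε) * p x := by
  obtain ⟨ψ, h1, h2⟩ := exists_norming p (F D δ L φ x)
  rw [← h1]
  exact F_fun_le D hδ hL hφ ψ x fun u _ => (h2 _).trans (D.avg _ _)

theorem F_close (hδ : 0 < δ) (hL : 0 < L) (hφ : IsC0 φ) (hδL : δ * Real.exp L < 1) {x : X}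
    (h : ∀ γ, |K.Φ x γ - φ γ| ≤ δ) : ‖F D δ L φ x - x‖ ≤ C3 E K * (δ * Real.exp L) := by
  obtain ⟨ψ, h1, h2⟩ := exists_norming (normSeminorm ℝ X) (F D δ L φ x - x)
  have hm := m_pos D
  have hC3 := C3_pos E K
  have h3 : ψ (F D δ L φ x) ≤ C3 E K * (δ * Real.exp L) + ψ x := by
    refine F_fun_le D hδ hL hφ ψ x fun u hu => ?_
    set A := cu δ φ u with hA
    have hu1 : δ * Real.exp u ≤ δ * Real.exp L := by gcongr; exact hu.2
    have hu0 : δ ≤ δ * Real.exp u := by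
      have := Real.one_le_exp hu.1
      nlinarith
    have hxA : x ∈ XA K A := mem_XA K hφ (by positivity) (by linarith) fun γ =>
      (h γ).trans hu0
    have htl : tlow A ≤ δ * Real.exp L := (tlow_le hφ (by positivity)).trans hu1
    have h4 : (D.m : ℝ)⁻¹ • ∑ j ∈ Finset.range D.m, E.P (D.S j A) x - x =
        (D.m : ℝ)⁻¹ • ∑ j ∈ Finset.range D.m, (E.P (D.S j A) x - x) := by
      rw [Finset.sum_sub_distrib, smul_sub, Finset.sum_const, Finset.card_range,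
        ← Nat.cast_smul_eq_nsmul ℝ, smul_smul, inv_mul_cancel₀ hm.ne', one_smul]
    have h5 : ‖(D.m : ℝ)⁻¹ • ∑ j ∈ Finset.range D.m, E.P (D.S j A) x - x‖ ≤
        C3 E K * (δ * Real.exp L) := by
      rw [h4, norm_smul, Real.norm_eq_abs, abs_of_pos (inv_pos.2 hm), inv_mul_le_iff₀ hm]
      calc ‖∑ j ∈ Finset.range D.m, (E.P (D.S j A) x - x)‖
          ≤ ∑ _j ∈ Finset.range D.m, C3 E K * (δ * Real.exp L) := by
            refine norm_sum_le_of_le _ fun j _ => ?_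
            rw [norm_sub_rev]
            refine (D.star A x hxA _ (D.mono_j A (Nat.zero_le j))).trans ?_
            gcongr
        _ = D.m * (C3 E K * (δ * Real.exp L)) := by
            rw [Finset.sum_const, Finset.card_range, nsmul_eq_mul]
    have h6 := h2 ((D.m : ℝ)⁻¹ • ∑ j ∈ Finset.range D.m, E.P (D.S j A) x - x)
    rw [map_sub] at h6
    have h7 : (normSeminorm ℝ X) ((D.m : ℝ)⁻¹ • ∑ j ∈ Finset.range D.m, E.P (D.S j A) x - x) =
      ‖(D.m : ℝ)⁻¹ • ∑ j ∈ Finset.range D.m, E.P (D.S j A) x - x‖ := rfl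
    rw [h7] at h6
    linarith
  rw [map_sub] at h1
  have h8 : (normSeminorm ℝ X) (F D δ L φ x - x) = ‖F D δ L φ x - x‖ := rfl
  rw [h8] at h1
  linarith

end Pool.Agent.Helper94.UF
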