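import Pool.Agent.Helper94.UF.Mult

/-! Finite codes of functions vanishing at infinity, and the finite sets of blocks attached to
them. -/

open Set Filter Topology

namespace Pool.Agent.Helper94.UF

set_option linter.unusedSectionVars false

variable {Γ : Type*}

/-- The type of codes. -/
abbrev Cd (Γ : Type*) := Finset ((Γ × ℕ) ⊕ ℕ)

/-- The threshold below which an element belongs to the code. -/
noncomputable def thr (φ : Γ → ℝ) : (Γ × ℕ) ⊕ ℕ → ℝ
  | Sum.inl a => |φ a.1| - a.2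
  | Sum.inr i => (1 / 2) ^ i

/-- Functions vanishing at infinity. -/
def IsC0 (φ : Γ → ℝ) : Prop := ∀ t : ℝ, 0 < t → {γ | t < |φ γ|}.Finite

theorem thr_finite {φ : Γ → ℝ} (hφ : IsC0 φ) {t : ℝ} (ht : 0 < t) : {a | t < thr φ a}.Finite := by
  have h1 : ∀ r : ℝ, {n : ℕ | (n : ℝ) < r}.Finite := fun r => by
    refine (Set.finite_Iio ⌈r⌉₊).subset fun n hn => ?_
    exact Nat.lt_ceil.2 hn
  have h2 : {i : ℕ | t < (1 / 2 : ℝ) ^ i}.Finite := by
    obtain ⟨N, hN⟩ := exists_pow_lt_of_lt_one ht (show (1 / 2 : ℝ) < 1 by norm_num)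
    refine (Set.finite_Iio N).subset fun i hi => ?_
    by_contra hc
    have h3 : N ≤ i := not_lt.1 hc
    have h4 : (1 / 2 : ℝ) ^ i ≤ (1 / 2 : ℝ) ^ N :=
      pow_le_pow_of_le_one (by norm_num) (by norm_num) h3
    have h5 : t < (1 / 2 : ℝ) ^ i := hi
    linarith
  refine (((hφ t ht).biUnion fun γ _ => (h1 |φ γ|).image fun n => (Sum.inl (γ, n) :
    (Γ × ℕ) ⊕ ℕ)).union (h2.image Sum.inr)).subset ?_
  rintro (⟨γ, n⟩ | i) ha
  · have ha' : t < |φ γ| - n := ha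
    have hn : (0 : ℝ) ≤ n := Nat.cast_nonneg n
    refine Or.inl (mem_biUnion (show γ ∈ {γ | t < |φ γ|} from ?_) ⟨n, ?_, rfl⟩)
    · change t < |φ γ|; linarith
    · change (n : ℝ) < |φ γ|; linarith
  · exact Or.inr ⟨i, ha, rfl⟩

/-- The code of `φ` at scale `t`. -/
noncomputable def code (t : ℝ) (φ : Γ → ℝ) : Cd Γ := by
  classical
  exact if h : {a | t < thr φ a}.Finite then h.toFinset else ∅

theorem mem_code {φ : Γ → ℝ} (hφ : IsC0 φ) {t : ℝ} (ht : 0 < t) {a : (Γ × ℕ) ⊕ ℕ} :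
    a ∈ code t φ ↔ t < thr φ a := by
  have h := thr_finite hφ ht
  unfold code
  rw [dif_pos h]
  simp

theorem code_anti {φ : Γ → ℝ} (hφ : IsC0 φ) {t t' : ℝ} (ht : 0 < t) (h : t ≤ t') :
    code t' φ ⊆ code t φ := fun _ ha =>
  (mem_code hφ ht).2 (lt_of_le_of_lt h ((mem_code hφ (ht.trans_le h)).1 ha))

theorem thr_close {φ φ' : Γ → ℝ} {τ : ℝ} (hτ : 0 ≤ τ) (h : ∀ γ, |φ γ - φ' γ| ≤ τ)
    (a : (Γ × ℕ) ⊕ ℕ) : thr φ a ≤ thr φ' a + τ := by
  rcases a with ⟨γ, n⟩ | i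
  · change |φ γ| - n ≤ |φ' γ| - n + τ
    have h1 := abs_sub_abs_le_abs_sub (φ γ) (φ' γ)
    have h2 := h γ
    linarith
  · change (1 / 2 : ℝ) ^ i ≤ (1 / 2) ^ i + τ
    linarith

theorem code_close {φ φ' : Γ → ℝ} (hφ : IsC0 φ) (hφ' : IsC0 φ') {t τ : ℝ} (ht : 0 < t)
    (hτ : 0 ≤ τ) (h : ∀ γ, |φ γ - φ' γ| ≤ τ) : code (t + τ) φ ⊆ code t φ' := fun a ha => by
  have h1 := (mem_code hφ (by linarith)).1 ha
  have h2 := thr_close hτ h a
  exact (mem_code hφ' ht).2 (by linarith)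

theorem code_strict {φ : Γ → ℝ} (hφ : IsC0 φ) {t t' : ℝ} (ht : 0 < t) (h : 2 * t ≤ t')
    (h1 : t' ≤ 1) : code t' φ ⊂ code t φ := by
  classical
  have ht' : 0 < t' := by linarith
  have hex : ∃ i : ℕ, (1 / 2 : ℝ) ^ i ≤ t' := by
    obtain ⟨N, hN⟩ := exists_pow_lt_of_lt_one ht' (show (1 / 2 : ℝ) < 1 by norm_num)
    exact ⟨N, hN.le⟩
  set i := Nat.find hex with hi
  have hi1 : (1 / 2 : ℝ) ^ i ≤ t' := Nat.find_spec hex
  have hi2 : t < (1 / 2 : ℝ) ^ i := by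
    rcases Nat.eq_zero_or_pos i with h0 | h0
    · rw [h0, pow_zero]; linarith
    · have h3 : ¬ (1 / 2 : ℝ) ^ (i - 1) ≤ t' := Nat.find_min hex (by omega)
      push Not at h3
      have h4 : (1 / 2 : ℝ) ^ i = (1 / 2) ^ (i - 1) * (1 / 2) := by
        rw [← pow_succ]; congr 1; omega
      rw [h4]; linarith
  refine (Finset.ssubset_iff_of_subset (code_anti hφ ht (by linarith))).2 ⟨Sum.inr i, ?_, ?_⟩
  · exact (mem_code hφ ht).2 hi2
  · intro hc
    have : t' < (1 / 2 : ℝ) ^ i := (mem_code hφ ht').1 hc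
    linarith

theorem exists_lev (A : Cd Γ) : ∃ i : ℕ, (Sum.inr i : (Γ × ℕ) ⊕ ℕ) ∉ A := by
  classical
  obtain ⟨i, hi⟩ := Infinite.exists_notMem_finset
    (A.preimage Sum.inr (Sum.inr_injective.injOn))
  exact ⟨i, fun h => hi (Finset.mem_preimage.2 h)⟩

open Classical in
/-- The dyadic level of a code. -/
noncomputable def lev (A : Cd Γ) : ℕ := Nat.find (exists_lev A)

/-- The scale of a code, up to a factor two. -/
noncomputable def tlow (A : Cd Γ) : ℝ := (1 / 2) ^ lev A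

theorem tlow_pos (A : Cd Γ) : 0 < tlow A := by unfold tlow; positivity

theorem tlow_le {φ : Γ → ℝ} (hφ : IsC0 φ) {t : ℝ} (ht : 0 < t) : tlow (code t φ) ≤ t := by
  classical
  have h := Nat.find_spec (exists_lev (code t φ))
  by_contra hc
  push Not at hc
  exact h ((mem_code hφ ht).2 hc)

theorem lt_two_tlow {φ : Γ → ℝ} (hφ : IsC0 φ) {t : ℝ} (ht : 0 < t) (h1 : t < 1) :
    t < 2 * tlow (code t φ) := by
  classical
  have h0 : lev (code t φ) ≠ 0 := by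
    intro h0
    have h := Nat.find_spec (exists_lev (code t φ))
    have h2 : (Sum.inr (lev (code t φ)) : (Γ × ℕ) ⊕ ℕ) ∉ code t φ := h
    rw [h0] at h2
    exact h2 ((mem_code hφ ht).2 (by change t < (1 / 2 : ℝ) ^ 0; simpa using h1))
  have h3 : ¬ (Sum.inr (lev (code t φ) - 1) : (Γ × ℕ) ⊕ ℕ) ∉ code t φ :=
    Nat.find_min (exists_lev (code t φ)) (by unfold lev at h0 ⊢; omega)
  push Not at h3
  have h4 : t < (1 / 2 : ℝ) ^ (lev (code t φ) - 1) := (mem_code hφ ht).1 h3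
  have h5 : 2 * tlow (code t φ) = (1 / 2 : ℝ) ^ (lev (code t φ) - 1) := by
    unfold tlow
    obtain ⟨n, hn⟩ := Nat.exists_eq_succ_of_ne_zero h0
    rw [hn, Nat.succ_eq_add_one, Nat.add_sub_cancel, pow_succ]
    ring
  rw [h5]; exact h4

variable {X : Type*} [NormedAddCommGroup X] [NormedSpace ℝ X] {ι : Type*}

/-- A bi-Lipschitz embedding into `c_0(Γ)` with `C^k` coordinates. -/
structure EK (k : WithTop ℕ∞) (X : Type*) [NormedAddCommGroup X] [NormedSpace ℝ X]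
    (Γ : Type*) where
  Φ : X → Γ → ℝ
  isC0 : ∀ x, IsC0 (Φ x)
  smooth : ∀ γ, ContDiff ℝ k (fun x => Φ x γ)
  L : ℝ
  L0 : 0 < L
  upper : ∀ x y γ, |Φ x γ - Φ y γ| ≤ L * ‖x - y‖
  c : ℝ
  c0 : 0 < c
  lower : ∀ x y (r : ℝ), 0 ≤ r → (∀ γ, |Φ x γ - Φ y γ| ≤ r) → c * ‖x - y‖ ≤ r

variable {k : WithTop ℕ∞} (E : UFDD X ι) (K : EK k X Γ)

/-- The set of points which may have the code `A`. -/
def XA (A : Cd Γ) : Set X :=
  {x | (∀ γ, (Sum.inl (γ, 0) : (Γ × ℕ) ⊕ ℕ) ∉ A → |K.Φ x γ| ≤ 4 * tlow A) ∧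
    ∀ γ, |K.Φ x γ| ≤ A.card + 2}

theorem mem_XA {φ : Γ → ℝ} (hφ : IsC0 φ) {t : ℝ} (ht : 0 < t) (h1 : t < 1) {x : X}
    (h : ∀ γ, |K.Φ x γ - φ γ| ≤ t) : x ∈ XA K (code t φ) := by
  classical
  have h2 := lt_two_tlow hφ ht h1
  have h3 : ∀ γ, |K.Φ x γ| ≤ |φ γ| + t := fun γ => by
    have := abs_sub_abs_le_abs_sub (K.Φ x γ) (φ γ)
    linarith [h γ]
  refine ⟨fun γ hγ => ?_, fun γ => ?_⟩
  · have h4 : ¬ t < |φ γ| - (0 : ℕ) := fun hc => hγ ((mem_code hφ ht).2 hc)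
    push_cast at h4
    linarith [h3 γ]
  · have h4 : |φ γ| ≤ (code t φ).card + t := by
      by_contra hc
      push Not at hc
      have h5 : (Finset.range ((code t φ).card + 1)).image
          (fun n => (Sum.inl (γ, n) : (Γ × ℕ) ⊕ ℕ)) ⊆ code t φ := by
        intro a ha
        obtain ⟨n, hn, rfl⟩ := Finset.mem_image.1 ha
        have hn' : (n : ℝ) ≤ (code t φ).card := by
          have := Finset.mem_range.1 hn
          exact_mod_cast (by omega : n ≤ (code t φ).card)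
        exact (mem_code hφ ht).2 (by change t < |φ γ| - n; linarith)
      have h6 := Finset.card_le_card h5
      rw [Finset.card_image_of_injective, Finset.card_range] at h6
      · omega
      · intro a b hab
        simpa using hab
    linarith [h3 γ]

/-- The constant in the tail estimate. -/
noncomputable def C3 : ℝ := (1 + E.C) * (8 / K.c) + 1

theorem C3_pos : 0 < C3 E K := by
  have := E.C0
  have := K.c0
  unfold C3
  positivity

theorem exists_star (A : Cd Γ) : ∃ B : Finset ι, ∀ x ∈ XA K A, ∀ B' : Finset ι, B ⊆ B' →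
    ‖x - E.P B' x‖ ≤ C3 E K * tlow A := by
  classical
  have ht := tlow_pos A
  have hC := E.C0
  have hc := K.c0
  have hinj : Function.Injective (fun γ : Γ => (Sum.inl (γ, 0) : (Γ × ℕ) ⊕ ℕ)) := by
    intro a b hab
    simpa using hab
  set G : Finset Γ := A.preimage (fun γ => (Sum.inl (γ, 0) : (Γ × ℕ) ⊕ ℕ)) hinj.injOn with hG
  have hmemG : ∀ γ, γ ∈ G ↔ (Sum.inl (γ, 0) : (Γ × ℕ) ⊕ ℕ) ∈ A := fun γ => by
    rw [hG, Finset.mem_preimage]
  let r : X → (G → ℝ) := fun x γ => K.Φ x γ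
  have hbdd : TotallyBounded (r '' XA K A) := by
    have : r '' XA K A ⊆ Metric.closedBall 0 (A.card + 2) := by
      rintro _ ⟨x, hx, rfl⟩
      rw [mem_closedBall_zero_iff, pi_norm_le_iff_of_nonneg (by positivity)]
      intro γ
      exact hx.2 γ
    exact ((isCompact_closedBall (0 : G → ℝ) (A.card + 2)).totallyBounded).subset this
  obtain ⟨t, htt, htf, hcov⟩ := hbdd.exists_subset (Metric.dist_mem_uniformity ht)
  have ht2 : ∀ y, y ∈ t → ∃ x : X, x ∈ XA K A ∧ r x = y := fun y hy => htt hy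
  choose! g hg using ht2
  choose! tl htl using fun x : X => E.exists_tail x ht
  refine ⟨htf.toFinset.biUnion fun y => tl (g y), fun x hx B' hB => ?_⟩
  obtain ⟨y, hy, hxy⟩ := mem_iUnion₂.1 (hcov ⟨x, hx, rfl⟩)
  have hgy : g y ∈ XA K A := (hg y hy).1
  have hry : r (g y) = y := (hg y hy).2
  have hsub : tl (g y) ⊆ B' := by
    refine Finset.Subset.trans ?_ hB
    intro γ hγ
    exact Finset.mem_biUnion.2 ⟨y, htf.mem_toFinset.2 hy, hγ⟩
  have hclose : ∀ γ, |K.Φ x γ - K.Φ (g y) γ| ≤ 8 * tlow A := by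
    intro γ
    by_cases hγ : γ ∈ G
    · have h3 : dist (r x) y < tlow A := hxy
      rw [← hry] at h3
      have h2 : dist (r x ⟨γ, hγ⟩) (r (g y) ⟨γ, hγ⟩) ≤ dist (r x) (r (g y)) :=
        dist_le_pi_dist _ _ _
      rw [Real.dist_eq] at h2
      have h4 : |K.Φ x γ - K.Φ (g y) γ| ≤ dist (r x) (r (g y)) := h2
      linarith
    · have h5 : (Sum.inl (γ, 0) : (Γ × ℕ) ⊕ ℕ) ∉ A := fun h => hγ ((hmemG γ).2 h)
      have h6 := hx.1 γ h5
      have h7 := hgy.1 γ h5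
      have h8 := abs_sub (K.Φ x γ) (K.Φ (g y) γ)
      linarith
  have hxg : ‖x - g y‖ ≤ 8 / K.c * tlow A := by
    have := K.lower x (g y) (8 * tlow A) (by positivity) hclose
    rw [div_mul_eq_mul_div, le_div_iff₀ hc]
    linarith
  have hdec : x - E.P B' x = ((x - g y) - E.P B' (x - g y)) + (g y - E.P B' (g y)) := by
    rw [map_sub]; abel
  rw [hdec]
  calc ‖((x - g y) - E.P B' (x - g y)) + (g y - E.P B' (g y))‖
      ≤ ‖(x - g y) - E.P B' (x - g y)‖ + ‖g y - E.P B' (g y)‖ := norm_add_le _ _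
    _ ≤ (1 + E.C) * ‖x - g y‖ + tlow A := add_le_add (E.norm_sub_P_le _ _) (htl _ _ hsub)
    _ ≤ (1 + E.C) * (8 / K.c * tlow A) + tlow A := by gcongr
    _ = C3 E K * tlow A := by unfold C3; ring

/-- Finite sets of blocks attached to codes. -/
structure Fam (p : Seminorm ℝ X) (ε : ℝ) where
  m : ℕ
  m0 : 0 < m
  S : ℕ → Cd Γ → Finset ι
  mono_j : ∀ A, Monotone fun j => S j A
  strict : ∀ A' A, A' ⊂ A → S m A' ⊆ S 0 A
  star : ∀ A, ∀ x ∈ XA K A, ∀ B' : Finset ι, S 0 A ⊆ B' → ‖x - E.P B' x‖ ≤ C3 E K * tlow A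
  avg : ∀ A x, p ((m : ℝ)⁻¹ • ∑ j ∈ Finset.range m, E.P (S j A) x) ≤ (1 + ε) * p x

variable {p : Seminorm ℝ X} {M ε : ℝ}

theorem exists_fam (hM : 0 < M) (hp : ∀ x, p x ≤ M * ‖x‖) (hq : ∀ x, ‖x‖ ≤ M * p x)
    (hε : 0 < ε) : Nonempty (Fam E K p ε) := by
  classical
  obtain ⟨N, m, hm, hN, hav⟩ := lemB E hM hp hq hε
  choose Bs hBs using fun A : Cd Γ => exists_star E K A
  let H : (A : Cd Γ) → ((B : Cd Γ) → B ⊂ A → Finset ι) → Finset ι := fun A f =>
    Bs A ∪ A.ssubsets.attach.biUnion fun B => N^[m] (f B.1 (Finset.mem_ssubsets.1 B.2))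
  let U : Cd Γ → Finset ι := fun A => Finset.strongInduction H A
  have hU : ∀ A, U A = Bs A ∪ A.ssubsets.attach.biUnion fun B => N^[m] (U B.1) := fun A =>
    Finset.strongInduction_eq H A
  have hsub : ∀ A B, B ⊂ A → N^[m] (U B) ⊆ U A := by
    intro A B hBA γ hγ
    rw [hU A, Finset.mem_union]
    exact Or.inr (Finset.mem_biUnion.2 ⟨⟨B, Finset.mem_ssubsets.2 hBA⟩, Finset.mem_attach _ _, hγ⟩)
  have hBU : ∀ A, Bs A ⊆ U A := fun A => by rw [hU A]; exact Finset.subset_union_left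
  exact ⟨⟨m, hm, fun j A => N^[j] (U A), fun A => monotone_nat_of_le_succ fun j => by
      rw [Function.iterate_succ_apply']; exact hN _,
    fun A' A h => hsub A A' h, fun A x hx B' hB => hBs A x hx B' ((hBU A).trans hB),
    fun A x => hav (U A) x⟩⟩

theorem Fam.mono_A (D : Fam E K p ε) {A' A : Cd Γ} (h : A' ⊆ A) {j : ℕ} (hj : j ≤ D.m) :
    D.S j A' ⊆ D.S j A := by
  rcases eq_or_ssubset_of_subset h with h' | h'
  · rw [h']
  · exact (D.mono_j A' hj).trans ((D.strict A' A h').trans (D.mono_j A (Nat.zero_le j)))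

end Pool.Agent.Helper94.UF
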