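import Mathlib

/-! Unconditional finite-dimensional decompositions whose disjoint averages are small. -/

open Set Filter Topology

namespace Pool.Agent.Helper94.UF

set_option linter.unusedSectionVars false
set_option linter.style.haveILetI false

/-- An unconditional finite-dimensional decomposition, over an arbitrary index set, such that the
averages of many disjoint vectors of the unit ball are uniformly small. -/
structure UFDD (X : Type*) [NormedAddCommGroup X] [NormedSpace ℝ X] (ι : Type*) where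
  π : ι → X →L[ℝ] X
  same : ∀ β x, π β (π β x) = π β x
  orth : ∀ α β, α ≠ β → ∀ x, π α (π β x) = 0
  fin : ∀ β, FiniteDimensional ℝ (LinearMap.range (π β : X →ₗ[ℝ] X))
  C : ℝ
  C1 : 1 ≤ C
  unc : ∀ (B : Finset ι) (s : ι → ℝ), (∀ β, |s β| ≤ 1) → ∀ x, ‖∑ β ∈ B, s β • π β x‖ ≤ C * ‖x‖
  dens : ∀ (x : X) (ε : ℝ), 0 < ε → ∃ B : Finset ι, ‖x - ∑ β ∈ B, π β x‖ ≤ ε
  avg : ∀ η : ℝ, 0 < η → ∃ m : ℕ, 0 < m ∧ ∀ (v : ℕ → X) (B : ℕ → Finset ι),
    (∀ i < m, ∀ j < m, i ≠ j → Disjoint (B i) (B j)) → (∀ j < m, ‖v j‖ ≤ 1) →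
    (∀ j < m, ∑ β ∈ B j, π β (v j) = v j) → ‖∑ j ∈ Finset.range m, v j‖ ≤ η * m

variable {X : Type*} [NormedAddCommGroup X] [NormedSpace ℝ X] {ι : Type*} (E : UFDD X ι)

namespace UFDD

/-- Multiplier with symbol `s` on the finite set `B`. -/
noncomputable def Mu (B : Finset ι) (s : ι → ℝ) : X →L[ℝ] X := ∑ β ∈ B, s β • E.π β

/-- Projection onto a finite set of blocks. -/
noncomputable def P (B : Finset ι) : X →L[ℝ] X := ∑ β ∈ B, E.π β

theorem Mu_apply (B : Finset ι) (s : ι → ℝ) (x : X) : E.Mu B s x = ∑ β ∈ B, s β • E.π β x := by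
  simp [Mu]

theorem P_apply (B : Finset ι) (x : X) : E.P B x = ∑ β ∈ B, E.π β x := by
  simp [P]

theorem Mu_one (B : Finset ι) (x : X) : E.Mu B (fun _ => 1) x = E.P B x := by
  simp [Mu_apply, P_apply]

theorem C0 : 0 < E.C := lt_of_lt_of_le one_pos E.C1

theorem pi_P_mem {B : Finset ι} {α : ι} (h : α ∈ B) (x : X) : E.π α (E.P B x) = E.π α x := by
  classical
  rw [P_apply, map_sum, Finset.sum_eq_single_of_mem α h, E.same]
  intro β _ hβ
  exact E.orth α β hβ.symm x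

theorem pi_P_notMem {B : Finset ι} {α : ι} (h : α ∉ B) (x : X) : E.π α (E.P B x) = 0 := by
  classical
  rw [P_apply, map_sum]
  refine Finset.sum_eq_zero fun β hβ => ?_
  exact E.orth α β (fun h' => h (h' ▸ hβ)) x

theorem Mu_P (B : Finset ι) (s : ι → ℝ) (x : X) : E.Mu B s (E.P B x) = E.Mu B s x := by
  rw [Mu_apply, Mu_apply]
  exact Finset.sum_congr rfl fun β hβ => by rw [E.pi_P_mem hβ]

theorem P_P_sub {B B' : Finset ι} (h : B ⊆ B') (x : X) : E.P B (E.P B' x) = E.P B x := by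
  rw [E.P_apply B, E.P_apply B]
  exact Finset.sum_congr rfl fun β hβ => by rw [E.pi_P_mem (h hβ)]

theorem P_P_sub' {B B' : Finset ι} (h : B ⊆ B') (x : X) : E.P B' (E.P B x) = E.P B x := by
  classical
  rw [P_apply, P_apply, ← Finset.sum_subset h]
  · exact Finset.sum_congr rfl fun β hβ => by
      have := E.pi_P_mem hβ x
      rwa [P_apply] at this
  · intro β _ hβ
    have := E.pi_P_notMem hβ x
    rwa [P_apply] at this

theorem P_fix_mono {B B' : Finset ι} (h : B ⊆ B') {x : X} (hx : E.P B x = x) : E.P B' x = x := by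
  rw [← hx, E.P_P_sub' h]

theorem Mu_congr {B B' : Finset ι} {s s' : ι → ℝ} (h : B ⊆ B') (h1 : ∀ β ∈ B, s β = s' β)
    (h2 : ∀ β ∈ B', β ∉ B → s' β = 0) (x : X) : E.Mu B s x = E.Mu B' s' x := by
  rw [Mu_apply, Mu_apply, ← Finset.sum_subset h]
  · exact Finset.sum_congr rfl fun β hβ => by rw [h1 β hβ]
  · intro β hβ hβ'
    rw [h2 β hβ hβ', zero_smul]

theorem P_sdiff [DecidableEq ι] {B B' : Finset ι} (h : B ⊆ B') (x : X) :
    E.P (B' \ B) x = E.P B' x - E.P B x := by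
  rw [P_apply, P_apply, P_apply, ← Finset.sum_sdiff h, add_sub_cancel_right]

theorem norm_Mu_le (B : Finset ι) (s : ι → ℝ) {κ : ℝ} (hκ : 0 ≤ κ) (hs : ∀ β ∈ B, |s β| ≤ κ)
    (x : X) : ‖E.Mu B s x‖ ≤ κ * (E.C * ‖x‖) := by
  classical
  rcases hκ.eq_or_lt with h | h
  · have : E.Mu B s x = 0 := by
      rw [Mu_apply]
      refine Finset.sum_eq_zero fun β hβ => ?_
      have h1 := hs β hβ
      rw [← h] at h1
      rw [abs_nonpos_iff.1 h1, zero_smul]
    rw [this, norm_zero, ← h, zero_mul]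
  · have h1 : E.Mu B s x = κ • ∑ β ∈ B, (if β ∈ B then s β / κ else 0) • E.π β x := by
      rw [Mu_apply, Finset.smul_sum]
      refine Finset.sum_congr rfl fun β hβ => ?_
      rw [if_pos hβ, smul_smul, mul_div_cancel₀ _ h.ne']
    rw [h1, norm_smul, Real.norm_eq_abs, abs_of_pos h]
    refine mul_le_mul_of_nonneg_left (E.unc B _ (fun β => ?_) x) hκ
    split_ifs with h2
    · rw [abs_div, abs_of_pos h, div_le_one h]
      exact hs β h2
    · simp

theorem norm_P_le (B : Finset ι) (x : X) : ‖E.P B x‖ ≤ E.C * ‖x‖ := by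
  have := E.norm_Mu_le B (fun _ => 1) zero_le_one (fun _ _ => by simp) x
  rwa [Mu_one, one_mul] at this

theorem norm_sub_P_le (B : Finset ι) (x : X) : ‖x - E.P B x‖ ≤ (1 + E.C) * ‖x‖ := by
  calc ‖x - E.P B x‖ ≤ ‖x‖ + ‖E.P B x‖ := norm_sub_le _ _
    _ ≤ ‖x‖ + E.C * ‖x‖ := by gcongr; exact E.norm_P_le B x
    _ = (1 + E.C) * ‖x‖ := by ring

theorem exists_tail (x : X) {ε : ℝ} (hε : 0 < ε) :
    ∃ B : Finset ι, ∀ B' : Finset ι, B ⊆ B' → ‖x - E.P B' x‖ ≤ ε := by
  have hC := E.C0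
  obtain ⟨B, hB⟩ := E.dens x (ε / (1 + E.C)) (by positivity)
  rw [← E.P_apply] at hB
  refine ⟨B, fun B' hBB => ?_⟩
  have h1 : x - E.P B' x = (x - E.P B x) - E.P B' (x - E.P B x) := by
    rw [map_sub, E.P_P_sub' hBB]; abel
  rw [h1]
  refine (E.norm_sub_P_le B' _).trans ?_
  calc (1 + E.C) * ‖x - E.P B x‖ ≤ (1 + E.C) * (ε / (1 + E.C)) := by gcongr
    _ = ε := by field_simp

/-- Sums of disjoint vectors. -/
theorem exists_avg {η : ℝ} (hη : 0 < η) : ∃ m : ℕ, 0 < m ∧ ∀ (R : ℝ) (v : ℕ → X)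
    (B : ℕ → Finset ι), 0 ≤ R →
    (∀ i < m, ∀ j < m, i ≠ j → Disjoint (B i) (B j)) → (∀ j < m, ‖v j‖ ≤ R) →
    (∀ j < m, E.P (B j) (v j) = v j) → ‖∑ j ∈ Finset.range m, v j‖ ≤ η * m * R := by
  obtain ⟨m, hm, h⟩ := E.avg η hη
  refine ⟨m, hm, fun R v B hR hd hv hs => ?_⟩
  rcases hR.eq_or_lt with h0 | h0
  · have : ∑ j ∈ Finset.range m, v j = 0 := by
      refine Finset.sum_eq_zero fun j hj => ?_
      have h1 := hv j (Finset.mem_range.1 hj)
      rw [← h0] at h1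
      exact norm_le_zero_iff.1 h1
    rw [this, norm_zero, ← h0, mul_zero]
  · have h1 := h (fun j => R⁻¹ • v j) B hd (fun j hj => by
      rw [norm_smul, Real.norm_eq_abs, abs_of_pos (inv_pos.2 h0), inv_mul_le_iff₀ h0, mul_one]
      exact hv j hj) (fun j hj => by
      rw [← E.P_apply, map_smul, hs j hj])
    rw [← Finset.smul_sum, norm_smul, Real.norm_eq_abs, abs_of_pos (inv_pos.2 h0),
      inv_mul_le_iff₀ h0] at h1
    linarith

theorem finiteDimensional_range_P (B : Finset ι) :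
    FiniteDimensional ℝ (LinearMap.range (E.P B : X →ₗ[ℝ] X)) := by
  classical
  have hle : LinearMap.range (E.P B : X →ₗ[ℝ] X) ≤
      B.sup fun β => LinearMap.range (E.π β : X →ₗ[ℝ] X) := by
    rintro _ ⟨x, rfl⟩
    change E.P B x ∈ _
    rw [P_apply]
    refine Submodule.sum_mem _ fun β hβ => ?_
    exact (Finset.le_sup (f := fun β => LinearMap.range (E.π β : X →ₗ[ℝ] X)) hβ) ⟨x, rfl⟩
  haveI : FiniteDimensional ℝ ↥(B.sup fun β => LinearMap.range (E.π β : X →ₗ[ℝ] X)) := by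
    haveI := E.fin
    exact Submodule.finiteDimensional_finset_sup B _
  exact Submodule.finiteDimensional_of_le hle

/-- The image of a bounded set under a finite projection is totally bounded. -/
theorem totallyBounded_P (B : Finset ι) {T : Set X} {R : ℝ} (hT : ∀ x ∈ T, ‖x‖ ≤ R) :
    TotallyBounded (E.P B '' T) := by
  set W := LinearMap.range (E.P B : X →ₗ[ℝ] X) with hW
  haveI : FiniteDimensional ℝ W := E.finiteDimensional_range_P B
  haveI : ProperSpace W := FiniteDimensional.proper_real W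
  have h1 : IsCompact (Metric.closedBall (0 : W) (E.C * R)) := isCompact_closedBall _ _
  have h2 : IsCompact ((fun w : W => (w : X)) '' Metric.closedBall (0 : W) (E.C * R)) :=
    h1.image continuous_subtype_val
  refine h2.totallyBounded.subset ?_
  rintro _ ⟨x, hx, rfl⟩
  refine ⟨⟨E.P B x, ⟨x, rfl⟩⟩, ?_, rfl⟩
  rw [mem_closedBall_zero_iff]
  change ‖E.P B x‖ ≤ _
  have hC := E.C0
  exact (E.norm_P_le B x).trans (by gcongr; exact hT x hx)

end UFDD

end Pool.Agent.Helper94.UF
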