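import Pool.Agent.Helper94.UF.Noise

/-! The smooth averaged map. -/

open scoped ContDiff
open Set Filter Topology MeasureTheory

namespace Pool.Agent.Helper94.UF

set_option linter.unusedSectionVars false

variable {Γ : Type*} {X : Type*} [NormedAddCommGroup X] [NormedSpace ℝ X] {ι : Type*}
variable {k : WithTop ℕ∞} {E : UFDD X ι} {K : EK k X Γ} {p : Seminorm ℝ X} {M ε : ℝ}
variable (D : Fam E K p ε) {δ L : ℝ}

theorem tame_wt (hδ : 0 < δ) (hL : 0 < L) (β : ι) : Tame δ fun φ => wt D δ L φ β where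
  nonneg := fun φ _ => wt_nonneg D hL β
  le_one := fun φ hφ => wt_le_one D hδ hL hφ β
  lip := ⟨L⁻¹ * δ⁻¹, by positivity, fun φ φ' hφ hφ' τ hτ h => by
    refine (wt_close D hδ hL hφ hφ' hτ h β).trans_eq ?_
    field_simp⟩
  loc := fun φ φ' hφ hφ' G h h1 h2 => by
    rw [wt, wt]
    congr 1
    refine intervalIntegral.integral_congr fun u hu => ?_
    rw [uIcc_of_le hL.le] at hu
    rw [cu_loc hδ hφ hφ' (by linarith [hu.1]) h h1 h2]

/-- The finite set of blocks seen by the smooth map. -/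
noncomputable def Sx (δ : ℝ) (x : X) : Finset ι := D.S D.m (code (7 / 8 * δ) (K.Φ x))

theorem cu_ph_sub (hδ : 0 < δ) (x : X) (G : Finset Γ) (z : Γ → ℝ) :
    cu δ (ph (K.Φ x) (δ / 16) G z) 0 ⊆ code (7 / 8 * δ) (K.Φ x) := by
  have h1 : code (7 / 8 * δ + 1 / 8 * δ) (ph (K.Φ x) (δ / 16) G z) ⊆ code (7 / 8 * δ) (K.Φ x) :=
    code_close (isC0_ph (K.isC0 x) _ _ _) (K.isC0 x) (by positivity) (by positivity) fun γ =>
      (ph_sub_le (by positivity) G z γ).trans (by linarith)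
  unfold cu
  rw [Real.exp_zero, mul_one]
  have e : 7 / 8 * δ + 1 / 8 * δ = δ := by ring
  rwa [e] at h1

/-- The smooth averaged map. -/
noncomputable def Ft (hδ : 0 < δ) (L : ℝ) (x : X) : X :=
  E.Mu (Sx D δ x) (fun β => sm K hδ (fun φ => wt D δ L φ β) x) x

theorem sm_wt_zero (hδ : 0 < δ) (hL : 0 < L) {x : X} {β : ι} (h : β ∉ Sx D δ x) :
    sm K hδ (fun φ => wt D δ L φ β) x = 0 := by
  have : ∀ z : Γ → ℝ, wt D δ L (ph (K.Φ x) (δ / 16) (Gx K hδ x) z) β = 0 := fun z =>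
    wt_eq_zero D hδ hL (isC0_ph (K.isC0 x) _ _ _) fun h' =>
      h (D.mono_A E K (cu_ph_sub hδ x _ z) le_rfl h')
  rw [sm]
  simp [this]

theorem Ft_eq (hδ : 0 < δ) (hL : 0 < L) {x : X} {S : Finset ι} (hS : Sx D δ x ⊆ S) :
    Ft D hδ L x = E.Mu S (fun β => sm K hδ (fun φ => wt D δ L φ β) x) x :=
  E.Mu_congr hS (fun _ _ => rfl) (fun _ _ h => sm_wt_zero D hδ hL h) x

theorem Ft_supp (hδ : 0 < δ) {x : X} {S : Finset ι} (hS : Sx D δ x ⊆ S) :
    E.P S (Ft D hδ L x) = Ft D hδ L x := by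
  classical
  have h1 : E.P (Sx D δ x) (Ft D hδ L x) = Ft D hδ L x := by
    rw [E.P_apply]
    unfold Ft
    rw [E.Mu_apply]
    refine Finset.sum_congr rfl fun β hβ => ?_
    rw [map_sum, Finset.sum_eq_single_of_mem β hβ, map_smul, E.same]
    intro α _ hα
    rw [map_smul, E.orth β α hα.symm, smul_zero]
  exact E.P_fix_mono hS h1

section
variable (ψ : X →ₗ[ℝ] ℝ)

theorem psi_F (hδ : 0 < δ) (hL : 0 < L) (x : X) (G : Finset Γ) (z : Γ → ℝ) :
    ψ (F D δ L (ph (K.Φ x) (δ / 16) G z) x) =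
      ∑ β ∈ Sx D δ x, wt D δ L (ph (K.Φ x) (δ / 16) G z) β * ψ (E.π β x) := by
  rw [F_eq D hδ hL (isC0_ph (K.isC0 x) _ _ _) (D.mono_A E K (cu_ph_sub hδ x G z) le_rfl)
    (S := Sx D δ x), E.Mu_apply, map_sum]
  refine Finset.sum_congr rfl fun β _ => ?_
  rw [map_smul, smul_eq_mul]

theorem psi_F_integrable (hδ : 0 < δ) (hL : 0 < L) (x : X) (G : Finset Γ) {η : ℝ} {hη : 0 < η} :
    Integrable (fun z => ψ (F D δ L (ph (K.Φ x) (δ / 16) G z) x)) (nu Γ η hη) := by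
  simp only [psi_F D ψ hδ hL]
  exact integrable_finsetSum _ fun β _ =>
    ((tame_wt D hδ hL β).integrable (K.isC0 x) _ G).mul_const _

theorem psi_Ft (hδ : 0 < δ) (hL : 0 < L) {x : X} {G : Finset Γ} (hG : Gx K hδ x ⊆ G) :
    ψ (Ft D hδ L x) =
      ∫ z, ψ (F D δ L (ph (K.Φ x) (δ / 16) G z) x) ∂(nu Γ (δ / 16) (by positivity)) := by
  simp only [psi_F D ψ hδ hL]
  rw [integral_finsetSum _ fun β _ =>
    ((tame_wt D hδ hL β).integrable (K.isC0 x) _ G).mul_const _]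
  unfold Ft
  rw [E.Mu_apply, map_sum]
  refine Finset.sum_congr rfl fun β _ => ?_
  rw [map_smul, smul_eq_mul, integral_mul_const, sm_eq K hδ (tame_wt D hδ hL β) hG]

end

theorem Ft_lip (hδ : 0 < δ) (hL : 0 < L) {x y : X} {R : ℝ}
    (h : ∀ (G : Finset Γ) (z : Γ → ℝ), p (F D δ L (ph (K.Φ x) (δ / 16) G z) x -
      F D δ L (ph (K.Φ y) (δ / 16) G z) y) ≤ R) : p (Ft D hδ L x - Ft D hδ L y) ≤ R := by
  classical
  obtain ⟨ψ, h1, h2⟩ := exists_norming p (Ft D hδ L x - Ft D hδ L y)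
  set G : Finset Γ := Gx K hδ x ∪ Gx K hδ y with hG
  rw [← h1, map_sub, psi_Ft D ψ hδ hL (G := G) Finset.subset_union_left,
    psi_Ft D ψ hδ hL (G := G) Finset.subset_union_right,
    ← integral_sub (psi_F_integrable D ψ hδ hL x G) (psi_F_integrable D ψ hδ hL y G)]
  have h3 : ∫ z, (ψ (F D δ L (ph (K.Φ x) (δ / 16) G z) x) -
      ψ (F D δ L (ph (K.Φ y) (δ / 16) G z) y)) ∂(nu Γ (δ / 16) (by positivity)) ≤
      ∫ _z : Γ → ℝ, R ∂(nu Γ (δ / 16) (by positivity)) := by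
    refine integral_mono ((psi_F_integrable D ψ hδ hL x G).sub (psi_F_integrable D ψ hδ hL y G))
      (integrable_const _) fun z => ?_
    change ψ (F D δ L (ph (K.Φ x) (δ / 16) G z) x) -
      ψ (F D δ L (ph (K.Φ y) (δ / 16) G z) y) ≤ R
    rw [← map_sub]
    exact (h2 _).trans (h G z)
  simpa using h3

theorem Ft_close (hδ : 0 < δ) (hL : 0 < L) (hδL : δ * Real.exp L < 1) (x : X) :
    ‖Ft D hδ L x - x‖ ≤ C3 E K * (δ * Real.exp L) := by
  obtain ⟨ψ, h1, h2⟩ := exists_norming (normSeminorm ℝ X) (Ft D hδ L x - x)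
  have h8 : (normSeminorm ℝ X) (Ft D hδ L x - x) = ‖Ft D hδ L x - x‖ := rfl
  rw [← h8, ← h1, map_sub, psi_Ft D ψ hδ hL (G := Gx K hδ x) subset_rfl]
  have h3 : ∫ z, ψ (F D δ L (ph (K.Φ x) (δ / 16) (Gx K hδ x) z) x)
      ∂(nu Γ (δ / 16) (by positivity)) ≤
      ∫ _z : Γ → ℝ, (ψ x + C3 E K * (δ * Real.exp L)) ∂(nu Γ (δ / 16) (by positivity)) := by
    refine integral_mono (psi_F_integrable D ψ hδ hL x _) (integrable_const _) fun z => ?_
    have h4 := F_close D (x := x) hδ hL (isC0_ph (K.isC0 x) (δ / 16) (Gx K hδ x) z) hδL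
      fun γ => by
        rw [abs_sub_comm]
        exact (ph_sub_le (by positivity) _ z γ).trans (by linarith)
    have h5 := h2 (F D δ L (ph (K.Φ x) (δ / 16) (Gx K hδ x) z) x - x)
    rw [map_sub] at h5
    have h6 : (normSeminorm ℝ X) (F D δ L (ph (K.Φ x) (δ / 16) (Gx K hδ x) z) x - x) =
      ‖F D δ L (ph (K.Φ x) (δ / 16) (Gx K hδ x) z) x - x‖ := rfl
    rw [h6] at h5
    change ψ (F D δ L (ph (K.Φ x) (δ / 16) (Gx K hδ x) z) x) ≤ ψ x + C3 E K * (δ * Real.exp L)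
    linarith
  have h7 : ∫ _z : Γ → ℝ, (ψ x + C3 E K * (δ * Real.exp L)) ∂(nu Γ (δ / 16) (by positivity)) =
      ψ x + C3 E K * (δ * Real.exp L) := by simp
  rw [h7] at h3
  linarith

theorem near_close (hδ : 0 < δ) {x x0 : X} (h : ‖x - x0‖ ≤ δ / (32 * K.L)) (γ : Γ) :
    |K.Φ x γ - K.Φ x0 γ| ≤ δ / 32 := by
  have hL := K.L0
  refine (K.upper x x0 γ).trans ?_
  calc K.L * ‖x - x0‖ ≤ K.L * (δ / (32 * K.L)) := by gcongr
    _ = δ / 32 := by field_simp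

theorem Ft_contDiff (hδ : 0 < δ) (hL : 0 < L) (hk : k ≤ ∞) : ContDiff ℝ k (Ft D hδ L) := by
  rw [contDiff_iff_contDiffAt]
  intro x0
  set S : Finset ι := D.S D.m (code (1 / 2 * δ) (K.Φ x0)) with hS
  have h1 : ContDiff ℝ k fun x : X =>
      E.Mu S (fun β => sm K hδ (fun φ => wt D δ L φ β) x) x := by
    simp only [E.Mu_apply]
    exact ContDiff.sum fun β _ => (sm_contDiff K hδ hk (tame_wt D hδ hL β)).smul
      (E.π β).contDiff
  refine (h1.contDiffAt (x := x0)).congr_of_eventuallyEq ?_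
  have hKL := K.L0
  filter_upwards [Metric.closedBall_mem_nhds x0 (show 0 < δ / (32 * K.L) by positivity)] with x hx
  have hx' : ‖x - x0‖ ≤ δ / (32 * K.L) := by rwa [mem_closedBall_iff_norm] at hx
  refine Ft_eq D hδ hL ?_
  refine D.mono_A E K ?_ le_rfl
  have h2 : code (1 / 2 * δ + 3 / 8 * δ) (K.Φ x) ⊆ code (1 / 2 * δ) (K.Φ x0) :=
    code_close (K.isC0 x) (K.isC0 x0) (by positivity) (by positivity) fun γ =>
      (near_close hδ hx' γ).trans (by linarith)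
  have e : 1 / 2 * δ + 3 / 8 * δ = 7 / 8 * δ := by ring
  rwa [e] at h2

end Pool.Agent.Helper94.UF
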