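import Pool.Agent.Helper94.UF.Avg

/-! The dependence of the averaged map on the code. -/

open Set Filter Topology MeasureTheory

namespace Pool.Agent.Helper94.UF

set_option linter.unusedSectionVars false

variable {Γ : Type*} {X : Type*} [NormedAddCommGroup X] [NormedSpace ℝ X] {ι : Type*}
variable {k : WithTop ℕ∞} {E : UFDD X ι} {K : EK k X Γ} {p : Seminorm ℝ X} {M ε : ℝ}
variable (D : Fam E K p ε) {δ : ℝ} {φ φ' : Γ → ℝ}

/-- The mismatch of the block `β` on the `i`-th unit interval of scales. -/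
noncomputable def cc (δ : ℝ) (φ φ' : Γ → ℝ) (i : ℕ) (β : ι) : ℝ :=
  ∫ u in (i : ℝ)..((i + 1 : ℕ) : ℝ), (pr D (cu δ φ u) β - pr D (cu δ φ' u) β)

theorem wt_sub (hδ : 0 < δ) (hφ : IsC0 φ) (hφ' : IsC0 φ') (n : ℕ) (β : ι) :
    wt D δ n φ β - wt D δ n φ' β = (n : ℝ)⁻¹ * ∑ i ∈ Finset.range n, cc D δ φ φ' i β := by
  rw [wt, wt, ← mul_sub]
  congr 1
  have h1 : ∀ a b, IntervalIntegrable (fun u => pr D (cu δ φ u) β) volume a b := fun a b =>
    (pr_cu_anti D hδ hφ β).intervalIntegrable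
  have h2 : ∀ a b, IntervalIntegrable (fun u => pr D (cu δ φ' u) β) volume a b := fun a b =>
    (pr_cu_anti D hδ hφ' β).intervalIntegrable
  rw [← intervalIntegral.integral_sub (h1 _ _) (h2 _ _)]
  have h3 := intervalIntegral.sum_integral_adjacent_intervals (μ := volume)
    (f := fun u => pr D (cu δ φ u) β - pr D (cu δ φ' u) β) (a := fun i : ℕ => (i : ℝ)) (n := n)
    fun i _ => (h1 _ _).sub (h2 _ _)
  rw [Nat.cast_zero] at h3
  exact h3.symm

theorem cc_le (hδ : 0 < δ) (hφ : IsC0 φ) (hφ' : IsC0 φ') {τ : ℝ} (hτ : 0 ≤ τ)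
    (h : ∀ γ, |φ γ - φ' γ| ≤ τ) (i : ℕ) (β : ι) :
    |cc D δ φ φ' i β| ≤ τ / (δ * Real.exp i) := by
  have key : ∀ {φ φ' : Γ → ℝ}, IsC0 φ → IsC0 φ' → (∀ γ, |φ γ - φ' γ| ≤ τ) →
      ∫ u in (i : ℝ)..((i + 1 : ℕ) : ℝ), pr D (cu δ φ' u) β ≤
        (∫ u in (i : ℝ)..((i + 1 : ℕ) : ℝ), pr D (cu δ φ u) β) + τ / (δ * Real.exp i) := by
    intro φ φ' hφ hφ' h
    refine shift_cmp (pr_cu_anti D hδ hφ β) (pr_cu_anti D hδ hφ' β) (fun u => pr_nonneg D _ β)
      (fun u => pr_le_one D _ β) (by positivity) (by push_cast; linarith)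
      fun u hu => pr_mono D ?_ β
    refine cu_close hδ hφ hφ' hτ h ?_
    have h1 : Real.exp i ≤ Real.exp u := Real.exp_le_exp.2 hu.1
    calc τ = δ * Real.exp i * (τ / (δ * Real.exp i)) := by field_simp
      _ ≤ δ * Real.exp u * (τ / (δ * Real.exp i)) := by gcongr
  have h1 := key hφ hφ' h
  have h2 := key hφ' hφ fun γ => by rw [abs_sub_comm]; exact h γ
  rw [cc, intervalIntegral.integral_sub (pr_cu_anti D hδ hφ β).intervalIntegrable
    (pr_cu_anti D hδ hφ' β).intervalIntegrable, abs_sub_le_iff]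
  constructor <;> linarith

/-- The range of blocks where the mismatch lives. -/
theorem cc_eq_zero (hδ : 0 < δ) (hφ : IsC0 φ) (hφ' : IsC0 φ') {τ : ℝ} (hτ : 0 ≤ τ)
    (h : ∀ γ, |φ γ - φ' γ| ≤ τ) (hτδ : τ ≤ δ * Real.exp (-1)) (i : ℕ) {β : ι}
    (hβ : β ∉ D.S D.m (cu δ φ' (i - 1)) ∨ β ∈ D.S 0 (cu δ φ' (i + 2))) :
    cc D δ φ φ' i β = 0 := by
  have : ∫ u in (i : ℝ)..((i + 1 : ℕ) : ℝ), (pr D (cu δ φ u) β - pr D (cu δ φ' u) β) =
      ∫ _u in (i : ℝ)..((i + 1 : ℕ) : ℝ), (0 : ℝ) := by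
    refine intervalIntegral.integral_congr fun u hu => ?_
    rw [uIcc_of_le (by push_cast; linarith)] at hu
    obtain ⟨hu1, hu2⟩ := hu
    push_cast at hu2
    have hi : (0 : ℝ) ≤ i := Nat.cast_nonneg i
    have hup : cu δ φ u ⊆ cu δ φ' (i - 1) := by
      have h1 : cu δ φ ((u - 1) + 1) ⊆ cu δ φ' (u - 1) :=
        cu_close hδ hφ' hφ hτ (fun γ => by rw [abs_sub_comm]; exact h γ) (by
          have : Real.exp (-1) ≤ Real.exp (u - 1) := Real.exp_le_exp.2 (by linarith)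
          calc τ ≤ δ * Real.exp (-1) := hτδ
            _ ≤ δ * Real.exp (u - 1) * 1 := by rw [mul_one]; gcongr)
      rw [sub_add_cancel] at h1
      exact h1.trans (cu_anti hδ hφ' (by linarith))
    have hlow : cu δ φ' (i + 2) ⊆ cu δ φ u := by
      have h1 : cu δ φ' (u + 1) ⊆ cu δ φ u :=
        cu_close hδ hφ hφ' hτ h (by
          have : Real.exp (-1) ≤ Real.exp u := Real.exp_le_exp.2 (by linarith)
          calc τ ≤ δ * Real.exp (-1) := hτδ
            _ ≤ δ * Real.exp u * 1 := by rw [mul_one]; gcongr)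
      exact (cu_anti hδ hφ' (by linarith)).trans h1
    have hup' : cu δ φ' u ⊆ cu δ φ' (i - 1) := cu_anti hδ hφ' (by linarith)
    have hlow' : cu δ φ' (i + 2) ⊆ cu δ φ' u := cu_anti hδ hφ' (by linarith)
    change pr D (cu δ φ u) β - pr D (cu δ φ' u) β = 0
    rcases hβ with hβ | hβ
    · rw [pr_zero D fun h' => hβ (D.mono_A E K hup le_rfl h'),
        pr_zero D fun h' => hβ (D.mono_A E K hup' le_rfl h'), sub_zero]
    · rw [pr_one D (D.mono_A E K hlow (Nat.zero_le _) hβ),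
        pr_one D (D.mono_A E K hlow' (Nat.zero_le _) hβ), sub_self]
  rw [cc, this]
  simp

theorem sum_range_four (f : ℕ → X) (m : ℕ) : ∑ i ∈ Finset.range (4 * m), f i =
    ∑ r ∈ Finset.range 4, ∑ q ∈ Finset.range m, f (4 * q + r) := by
  induction m with
  | zero => simp
  | succ m ih =>
    rw [show 4 * (m + 1) = 4 * m + 3 + 1 by ring, Finset.sum_range_succ, Finset.sum_range_succ,
      Finset.sum_range_succ, Finset.sum_range_succ, ih]
    simp only [Finset.sum_range_succ, Finset.sum_range_zero, zero_add, add_zero]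
    abel

/-- **The jump term.** -/
theorem jump_le {η : ℝ} (_hη : 0 < η) {m' : ℕ} (hm' : 0 < m')
    (hav : ∀ (R : ℝ) (v : ℕ → X) (B : ℕ → Finset ι), 0 ≤ R →
      (∀ i < m', ∀ j < m', i ≠ j → Disjoint (B i) (B j)) → (∀ j < m', ‖v j‖ ≤ R) →
      (∀ j < m', E.P (B j) (v j) = v j) → ‖∑ j ∈ Finset.range m', v j‖ ≤ η * m' * R)
    (hδ : 0 < δ) (hδL : δ * Real.exp ((4 * m' : ℕ) + 1) < 1) (hφ : IsC0 φ) (hφ' : IsC0 φ')
    {τ : ℝ} (hτ : 0 ≤ τ) (h : ∀ γ, |φ γ - φ' γ| ≤ τ) (hτδ : τ ≤ δ * Real.exp (-1)) {x : X}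
    (hx : ∀ γ, |K.Φ x γ - φ' γ| ≤ δ * Real.exp (-1)) :
    ‖F D δ (4 * m' : ℕ) φ x - F D δ (4 * m' : ℕ) φ' x‖ ≤
      η * (2 * Real.exp 2 * E.C * C3 E K * τ) := by
  classical
  set n : ℕ := 4 * m' with hn
  have hn0 : 0 < n := by omega
  have hnR : (0 : ℝ) < n := by exact_mod_cast hn0
  have hC := E.C0
  have hC3 := C3_pos E K
  set S : Finset ι := D.S D.m (cu δ φ 0) ∪ D.S D.m (cu δ φ' 0) with hS
  set Rg : ℕ → Finset ι := fun i => D.S D.m (cu δ φ' (i - 1)) \ D.S 0 (cu δ φ' (i + 2)) with hRg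
  set c : ℕ → ι → ℝ := fun i => cc D δ φ φ' i with hc
  have hczero : ∀ i β, β ∉ Rg i → c i β = 0 := by
    intro i β hβ
    refine cc_eq_zero D hδ hφ hφ' hτ h hτδ i ?_
    by_cases h1 : β ∈ D.S D.m (cu δ φ' (i - 1))
    · exact Or.inr (by
        by_contra h2
        exact hβ (Finset.mem_sdiff.2 ⟨h1, h2⟩))
    · exact Or.inl h1
  have hcS : ∀ i β, β ∉ S → c i β = 0 := by
    intro i β hβ
    have h1 : ∫ u in (i : ℝ)..((i + 1 : ℕ) : ℝ), (pr D (cu δ φ u) β - pr D (cu δ φ' u) β) =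
        ∫ _u in (i : ℝ)..((i + 1 : ℕ) : ℝ), (0 : ℝ) := by
      refine intervalIntegral.integral_congr fun u hu => ?_
      rw [uIcc_of_le (by push_cast; linarith)] at hu
      have hu0 : (0 : ℝ) ≤ u := (Nat.cast_nonneg i).trans hu.1
      change pr D (cu δ φ u) β - pr D (cu δ φ' u) β = 0
      rw [pr_zero D fun h' => hβ (Finset.mem_union_left _
          (D.mono_A E K (cu_anti hδ hφ hu0) le_rfl h')),
        pr_zero D fun h' => hβ (Finset.mem_union_right _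
          (D.mono_A E K (cu_anti hδ hφ' hu0) le_rfl h')), sub_zero]
    simp only [hc]
    rw [cc, h1]
    simp
  set v : ℕ → X := fun i => E.Mu (Rg i) (c i) x with hv
  have hvS : ∀ i, E.Mu S (c i) x = v i := by
    intro i
    have h1 : E.Mu S (c i) x = E.Mu (S ∪ Rg i) (c i) x :=
      E.Mu_congr Finset.subset_union_left (fun _ _ => rfl) (fun β _ hβ => hcS i β hβ) x
    have h2 : E.Mu (Rg i) (c i) x = E.Mu (S ∪ Rg i) (c i) x :=
      E.Mu_congr Finset.subset_union_right (fun _ _ => rfl) (fun β _ hβ => hczero i β hβ) x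
    rw [h1, hv]; exact h2.symm
  have hdec : F D δ n φ x - F D δ n φ' x = (n : ℝ)⁻¹ • ∑ i ∈ Finset.range n, v i := by
    rw [F_eq D hδ hnR hφ (Finset.subset_union_left : _ ⊆ S) x,
      F_eq D hδ hnR hφ' (Finset.subset_union_right : _ ⊆ S) x, E.Mu_apply, E.Mu_apply,
      ← Finset.sum_sub_distrib]
    have h1 : ∀ β ∈ S, wt D δ n φ β • E.π β x - wt D δ n φ' β • E.π β x =
        (n : ℝ)⁻¹ • ∑ i ∈ Finset.range n, c i β • E.π β x := by
      intro β _
      rw [← sub_smul, wt_sub D hδ hφ hφ', mul_smul, Finset.sum_smul]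
    rw [Finset.sum_congr rfl h1, ← Finset.smul_sum, Finset.sum_comm]
    congr 1
    refine Finset.sum_congr rfl fun i _ => ?_
    rw [← hvS i, E.Mu_apply]
  set R : ℝ := 2 * Real.exp 2 * E.C * C3 E K * τ with hR
  have hR0 : 0 ≤ R := by positivity
  have hvnorm : ∀ i < n, ‖v i‖ ≤ R := by
    intro i hi
    have hi' : (i : ℝ) + 1 ≤ n := by exact_mod_cast hi
    have hA : cu δ φ' (i + 2) ⊆ cu δ φ' (i - 1) := cu_anti hδ hφ' (by linarith)
    have hsub : D.S 0 (cu δ φ' (i + 2)) ⊆ D.S D.m (cu δ φ' (i - 1)) :=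
      (D.mono_A E K hA (Nat.zero_le _)).trans (D.mono_j _ (Nat.zero_le _))
    have hscale : δ * Real.exp (i + 2) < 1 := by
      exact lt_of_le_of_lt (mul_le_mul_of_nonneg_left (Real.exp_le_exp.2 (by linarith)) hδ.le) hδL
    have hxA : x ∈ XA K (cu δ φ' (i + 2)) := by
      have hi0 : (0 : ℝ) ≤ i := Nat.cast_nonneg i
      exact mem_XA K hφ' (by positivity) hscale fun γ => (hx γ).trans
        (mul_le_mul_of_nonneg_left (Real.exp_le_exp.2 (by linarith)) hδ.le)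
    have htl : tlow (cu δ φ' (i + 2)) ≤ δ * Real.exp (i + 2) := tlow_le hφ' (by positivity)
    have h1 : ‖E.P (Rg i) x‖ ≤ 2 * (C3 E K * (δ * Real.exp (i + 2))) := by
      have h2 : E.P (Rg i) x = (x - E.P (D.S 0 (cu δ φ' (i + 2))) x) -
          (x - E.P (D.S D.m (cu δ φ' (i - 1))) x) := by
        simp only [hRg]
        rw [E.P_sdiff hsub]; abel
      rw [h2]
      have h3 := D.star _ x hxA _ (Finset.Subset.refl _)
      have h4 := D.star _ x hxA _ hsub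
      calc _ ≤ ‖x - E.P (D.S 0 (cu δ φ' (i + 2))) x‖ +
            ‖x - E.P (D.S D.m (cu δ φ' (i - 1))) x‖ := norm_sub_le _ _
        _ ≤ C3 E K * tlow (cu δ φ' (i + 2)) + C3 E K * tlow (cu δ φ' (i + 2)) := add_le_add h3 h4
        _ ≤ C3 E K * (δ * Real.exp (i + 2)) + C3 E K * (δ * Real.exp (i + 2)) := by gcongr
        _ = _ := by ring
    have h2 : v i = E.Mu (Rg i) (c i) (E.P (Rg i) x) := by rw [E.Mu_P]
    rw [h2]
    calc ‖E.Mu (Rg i) (c i) (E.P (Rg i) x)‖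
        ≤ τ / (δ * Real.exp i) * (E.C * ‖E.P (Rg i) x‖) :=
          E.norm_Mu_le _ _ (by positivity) (fun β _ => cc_le D hδ hφ hφ' hτ h i β) _
      _ ≤ τ / (δ * Real.exp i) * (E.C * (2 * (C3 E K * (δ * Real.exp (i + 2))))) := by gcongr
      _ = R := by
        rw [Real.exp_add, hR]
        field_simp
  have hvsupp : ∀ i, E.P (Rg i) (v i) = v i := by
    intro i
    rw [E.P_apply]
    simp only [hv]
    rw [E.Mu_apply]
    refine Finset.sum_congr rfl fun β hβ => ?_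
    rw [map_sum, Finset.sum_eq_single_of_mem β hβ, map_smul, E.same]
    intro α _ hα
    rw [map_smul, E.orth β α hα.symm, smul_zero]
  have hdisj : ∀ i j, i + 4 ≤ j → j < n → Disjoint (Rg i) (Rg j) := by
    intro i j hij hj
    rw [Finset.disjoint_left]
    intro β h1 h2
    have hijR : (i : ℝ) + 4 ≤ j := by exact_mod_cast hij
    have hjR : (j : ℝ) + 1 ≤ n := by exact_mod_cast hj
    have hst : cu δ φ' (j - 1) ⊂ cu δ φ' (i + 2) := by
      refine code_strict hφ' (by positivity) ?_ ?_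
      · have h3 : Real.exp (i + 3) ≤ Real.exp (j - 1) := Real.exp_le_exp.2 (by linarith)
        have h4 : Real.exp ((i : ℝ) + 3) = Real.exp (i + 2) * Real.exp 1 := by
          rw [← Real.exp_add]; ring_nf
        have h5 : (2 : ℝ) ≤ Real.exp 1 := by linarith [Real.exp_one_gt_d9]
        have h6 : Real.exp (i + 2) * 2 ≤ Real.exp (i + 2) * Real.exp 1 := by gcongr
        calc 2 * (δ * Real.exp (i + 2)) = δ * (Real.exp (i + 2) * 2) := by ring
          _ ≤ δ * Real.exp (j - 1) := by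
            gcongr
            linarith
      · exact (lt_of_le_of_lt (mul_le_mul_of_nonneg_left (Real.exp_le_exp.2 (by linarith))
          hδ.le) hδL).le
    have h3 : β ∈ D.S D.m (cu δ φ' (j - 1)) := (Finset.mem_sdiff.1 h2).1
    exact (Finset.mem_sdiff.1 h1).2 (D.strict _ _ hst h3)
  have hclass : ∀ r < 4, ‖∑ q ∈ Finset.range m', v (4 * q + r)‖ ≤ η * m' * R := by
    intro r hr
    refine hav R (fun q => v (4 * q + r)) (fun q => Rg (4 * q + r)) hR0 ?_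
      (fun q hq => hvnorm _ (by omega)) (fun q _ => hvsupp _)
    intro a ha b hb hab
    rcases lt_or_gt_of_ne hab with h1 | h1
    · exact hdisj _ _ (by omega) (by omega)
    · exact (hdisj _ _ (by omega) (by omega)).symm
  rw [hdec, norm_smul, Real.norm_eq_abs, abs_of_pos (inv_pos.2 hnR), inv_mul_le_iff₀ hnR]
  have hsum : ∑ i ∈ Finset.range n, v i =
      ∑ r ∈ Finset.range 4, ∑ q ∈ Finset.range m', v (4 * q + r) := sum_range_four v m'
  rw [hsum]
  calc ‖∑ r ∈ Finset.range 4, ∑ q ∈ Finset.range m', v (4 * q + r)‖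
      ≤ ∑ _r ∈ Finset.range 4, η * m' * R :=
        norm_sum_le_of_le _ fun r hr => hclass r (Finset.mem_range.1 hr)
    _ = n * (η * R) := by
        rw [Finset.sum_const, Finset.card_range, nsmul_eq_mul, hn]
        push_cast; ring

theorem F_map_sub (δ L : ℝ) (φ : Γ → ℝ) (x y : X) :
    F D δ L φ (x - y) = F D δ L φ x - F D δ L φ y := by
  unfold F; rw [map_sub]

/-- The Lipschitz estimate for a fixed perturbation. -/
theorem F_lip {η : ℝ} (hη : 0 < η) {m' : ℕ} (hm' : 0 < m')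
    (hav : ∀ (R : ℝ) (v : ℕ → X) (B : ℕ → Finset ι), 0 ≤ R →
      (∀ i < m', ∀ j < m', i ≠ j → Disjoint (B i) (B j)) → (∀ j < m', ‖v j‖ ≤ R) →
      (∀ j < m', E.P (B j) (v j) = v j) → ‖∑ j ∈ Finset.range m', v j‖ ≤ η * m' * R)
    (hM : 0 < M) (hp : ∀ x, p x ≤ M * ‖x‖)
    (hδ : 0 < δ) (hδL : δ * Real.exp ((4 * m' : ℕ) + 1) < 1) (hφ : IsC0 φ) (hφ' : IsC0 φ')
    {τ : ℝ} (hτ : 0 ≤ τ) (h : ∀ γ, |φ γ - φ' γ| ≤ τ) (hτδ : τ ≤ δ * Real.exp (-1)) {x y : X}
    (hy : ∀ γ, |K.Φ y γ - φ' γ| ≤ δ * Real.exp (-1)) :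
    p (F D δ (4 * m' : ℕ) φ x - F D δ (4 * m' : ℕ) φ' y) ≤
      (1 + ε) * p (x - y) + M * (η * (2 * Real.exp 2 * E.C * C3 E K * τ)) := by
  have hL : (0 : ℝ) < (4 * m' : ℕ) := by exact_mod_cast (by omega : 0 < 4 * m')
  have h1 : F D δ (4 * m' : ℕ) φ x - F D δ (4 * m' : ℕ) φ' y =
      F D δ (4 * m' : ℕ) φ (x - y) +
        (F D δ (4 * m' : ℕ) φ y - F D δ (4 * m' : ℕ) φ' y) := by
    rw [F_map_sub]; abel
  rw [h1]
  refine (map_add_le_add p _ _).trans (add_le_add (p_F_le D hδ hL hφ _) ((hp _).trans ?_))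
  exact mul_le_mul_of_nonneg_left (jump_le D hη hm' hav hδ hδL hφ hφ' hτ h hτδ hy) hM.le

end Pool.Agent.Helper94.UF
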