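import Pool.Agent.Helper94.UF.Ft

/-! Smoothing on a finite-dimensional range, and the weights of the codes. -/

open scoped ContDiff
open Set Filter Topology MeasureTheory

namespace Pool.Agent.Helper94.UF

open Pool.Agent.Helper94.CZ (law pi_law_ae contDiff_average)

set_option linter.unusedSectionVars false
set_option linter.style.haveILetI false

variable {Γ : Type*} {X : Type*} [NormedAddCommGroup X] [NormedSpace ℝ X] {ι : Type*}
variable {p : Seminorm ℝ X} {M : ℝ}

theorem continuous_of_lip {f : X → ℝ} {Λ : ℝ} (hM : 0 < M) (hp : ∀ x, p x ≤ M * ‖x‖) (hΛ : 0 ≤ Λ)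
    (hf : ∀ x y, |f x - f y| ≤ Λ * p (x - y)) : Continuous f := by
  have : LipschitzWith (Real.toNNReal (Λ * M)) f := by
    refine LipschitzWith.of_dist_le_mul fun x y => ?_
    rw [Real.coe_toNNReal _ (by positivity), Real.dist_eq, dist_eq_norm]
    calc |f x - f y| ≤ Λ * p (x - y) := hf x y
      _ ≤ Λ * (M * ‖x - y‖) := by gcongr; exact hp _
      _ = Λ * M * ‖x - y‖ := by ring
  exact this.continuous

/-- Smooth approximation on a finite-dimensional range. -/
theorem moll (E : UFDD X ι) (hM : 0 < M) (hp : ∀ x, p x ≤ M * ‖x‖) {f : X → ℝ} {Λ : ℝ}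
    (hΛ : 0 ≤ Λ) (hf : ∀ x y, |f x - f y| ≤ Λ * p (x - y)) (S : Finset ι) {κ : ℝ} (hκ : 0 < κ) :
    ∃ g : X → ℝ, ContDiff ℝ ∞ g ∧ (∀ y y', |g y - g y'| ≤ Λ * p (E.P S y - E.P S y')) ∧
      ∀ y, |g y - f (E.P S y)| ≤ κ := by
  set W := LinearMap.range (E.P S : X →ₗ[ℝ] X) with hW
  haveI : FiniteDimensional ℝ W := E.finiteDimensional_range_P S
  set n := Module.finrank ℝ W with hn
  let e : W ≃L[ℝ] (Fin n → ℝ) := ContinuousLinearEquiv.ofFinrankEq (by simp [hn])
  let Q : (Fin n → ℝ) →L[ℝ] X := W.subtypeL.comp (e.symm : (Fin n → ℝ) →L[ℝ] W)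
  let R : X →L[ℝ] (Fin n → ℝ) := (e : W →L[ℝ] (Fin n → ℝ)).comp
    ((E.P S).codRestrict W fun x => ⟨x, rfl⟩)
  have hQR : ∀ y, Q (R y) = E.P S y := by
    intro y
    change ((e.symm (e ((E.P S).codRestrict W (fun x => ⟨x, rfl⟩) y)) : W) : X) = _
    rw [e.symm_apply_apply]
    rfl
  have hfc : Continuous f := continuous_of_lip hM hp hΛ hf
  set η : ℝ := κ / (Λ * (M * ‖Q‖) + 1) with hη'
  have hη : 0 < η := by positivity
  have hηκ : Λ * (M * (‖Q‖ * η)) ≤ κ := by
    have h1 : Λ * (M * (‖Q‖ * η)) = (Λ * (M * ‖Q‖)) * κ / (Λ * (M * ‖Q‖) + 1) := by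
      rw [hη']; ring
    rw [h1, div_le_iff₀ (by positivity)]
    nlinarith
  set μ : Measure (Fin n → ℝ) := Measure.pi fun _ : Fin n => law η hη with hμ
  have hcont : Continuous fun a : Fin n → ℝ => f (Q a) := hfc.comp Q.continuous
  have hbd : ∀ᵐ z ∂μ, ‖Q z‖ ≤ ‖Q‖ * η := by
    filter_upwards [pi_law_ae hη (ι := Fin n)] with z hz
    refine (Q.le_opNorm z).trans ?_
    gcongr
    exact (pi_norm_le_iff_of_nonneg hη.le).2 hz
  have hdiff : ∀ y, ∀ᵐ z ∂μ, |f (Q (R y + z)) - f (E.P S y)| ≤ κ := by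
    intro y
    filter_upwards [hbd] with z hz
    refine (hf _ _).trans (le_trans ?_ hηκ)
    rw [map_add, hQR, add_sub_cancel_left]
    gcongr
    exact (hp _).trans (by gcongr)
  have hint : ∀ y, Integrable (fun z => f (Q (R y + z))) μ := by
    intro y
    refine Integrable.of_bound
      ((hcont.comp (continuous_const.add continuous_id)).aestronglyMeasurable)
      (|f (E.P S y)| + κ) ?_
    filter_upwards [hdiff y] with z hz
    rw [Real.norm_eq_abs]
    have := abs_add_le (f (E.P S y)) (f (Q (R y + z)) - f (E.P S y))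
    have h2 : f (E.P S y) + (f (Q (R y + z)) - f (E.P S y)) = f (Q (R y + z)) := by ring
    rw [h2] at this
    linarith
  refine ⟨fun y => ∫ z, f (Q (R y + z)) ∂μ, ?_, ?_, ?_⟩
  · exact (contDiff_average hη hcont).comp R.contDiff
  · intro y y'
    rw [← integral_sub (hint y) (hint y')]
    have h1 := norm_integral_le_of_norm_le_const (μ := μ)
      (C := Λ * p (E.P S y - E.P S y'))
      (f := fun z => f (Q (R y + z)) - f (Q (R y' + z))) (ae_of_all _ fun z => by
        rw [Real.norm_eq_abs]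
        refine (hf _ _).trans_eq ?_
        rw [map_add, map_add, hQR, hQR, add_sub_add_right_eq_sub])
    rw [Real.norm_eq_abs] at h1
    simpa using h1
  · intro y
    have h0 : f (E.P S y) = ∫ _z : Fin n → ℝ, f (E.P S y) ∂μ := by simp
    change |(∫ z, f (Q (R y + z)) ∂μ) - f (E.P S y)| ≤ κ
    rw [h0, ← integral_sub (hint y) (integrable_const _)]
    have h1 := norm_integral_le_of_norm_le_const (μ := μ) (C := κ)
      (f := fun z => f (Q (R y + z)) - f (E.P S y)) (by
        filter_upwards [hdiff y] with z hz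
        rwa [Real.norm_eq_abs])
    rw [Real.norm_eq_abs] at h1
    simpa using h1

open Classical in
/-- The proportion of scales at which the code equals `A`. -/
noncomputable def Hq (δ : ℝ) (A : Cd Γ) (φ : Γ → ℝ) : ℝ :=
  ∫ v in (-2 : ℝ)..(-1), if cu δ φ v = A then (1 : ℝ) else 0

open Classical in
theorem ind_eq (A B : Cd Γ) : (if B = A then (1 : ℝ) else 0) =
    (if A ⊆ B then (1 : ℝ) else 0) - if A ⊂ B then (1 : ℝ) else 0 := by
  by_cases h1 : A ⊆ B
  · by_cases h2 : B = A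
    · rw [if_pos h1, if_pos h2, if_neg (by rw [h2]; exact (ssubset_irrefl A)), sub_zero]
    · have h3 : A ⊂ B := lt_of_le_of_ne h1 (Ne.symm h2)
      rw [if_pos h1, if_neg h2, if_pos h3, sub_self]
  · rw [if_neg (show ¬ (B = A) from fun h => h1 (h ▸ subset_rfl)), if_neg h1,
      if_neg (show ¬ A ⊂ B from fun h => h1 h.1), sub_zero]

section

variable {δ : ℝ} {φ φ' : Γ → ℝ}

open Classical in
theorem anti1 (hδ : 0 < δ) (hφ : IsC0 φ) (A : Cd Γ) :
    Antitone fun v => if A ⊆ cu δ φ v then (1 : ℝ) else 0 := by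
  intro v w hvw
  change (if A ⊆ cu δ φ w then (1 : ℝ) else 0) ≤ if A ⊆ cu δ φ v then (1 : ℝ) else 0
  have hsub := cu_anti hδ hφ hvw
  by_cases h : A ⊆ cu δ φ w
  · rw [if_pos h, if_pos (h.trans hsub)]
  · rw [if_neg h]; split_ifs <;> norm_num

open Classical in
theorem anti2 (hδ : 0 < δ) (hφ : IsC0 φ) (A : Cd Γ) :
    Antitone fun v => if A ⊂ cu δ φ v then (1 : ℝ) else 0 := by
  intro v w hvw
  change (if A ⊂ cu δ φ w then (1 : ℝ) else 0) ≤ if A ⊂ cu δ φ v then (1 : ℝ) else 0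
  have hsub := cu_anti hδ hφ hvw
  by_cases h : A ⊂ cu δ φ w
  · rw [if_pos h, if_pos (lt_of_lt_of_le h hsub)]
  · rw [if_neg h]; split_ifs <;> norm_num

open Classical in
theorem ind_integrable (hδ : 0 < δ) (hφ : IsC0 φ) (A : Cd Γ) (a b : ℝ) :
    IntervalIntegrable (fun v => if cu δ φ v = A then (1 : ℝ) else 0) volume a b := by
  simp only [ind_eq]
  exact (anti1 hδ hφ A).intervalIntegrable.sub (anti2 hδ hφ A).intervalIntegrable

open Classical in
theorem Hq_eq (hδ : 0 < δ) (hφ : IsC0 φ) (A : Cd Γ) : Hq δ A φ =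
    (∫ v in (-2 : ℝ)..(-1), if A ⊆ cu δ φ v then (1 : ℝ) else 0) -
      ∫ v in (-2 : ℝ)..(-1), if A ⊂ cu δ φ v then (1 : ℝ) else 0 := by
  unfold Hq
  simp only [ind_eq]
  exact intervalIntegral.integral_sub (anti1 hδ hφ A).intervalIntegrable
    (anti2 hδ hφ A).intervalIntegrable

theorem tame_Hq (hδ : 0 < δ) (A : Cd Γ) : Tame δ (Hq δ A) where
  nonneg := fun φ _ => intervalIntegral.integral_nonneg (by norm_num) fun v _ => by
    split_ifs <;> norm_num
  le_one := fun φ hφ => by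
    classical
    have h : Hq δ A φ ≤ ∫ _v in (-2 : ℝ)..(-1), (1 : ℝ) :=
      intervalIntegral.integral_mono_on (by norm_num) (ind_integrable hδ hφ A _ _)
        intervalIntegrable_const fun v _ => by split_ifs <;> norm_num
    rw [intervalIntegral.integral_const] at h
    norm_num at h
    exact h
  lip := by
    classical
    refine ⟨2 / (δ * Real.exp (-2)), by positivity, fun φ φ' hφ hφ' τ hτ h => ?_⟩
    have hκ : ∀ v ∈ Icc (-2 : ℝ) (-1), τ ≤ δ * Real.exp v * (τ / (δ * Real.exp (-2))) := by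
      intro v hv
      have h1 : Real.exp (-2) ≤ Real.exp v := Real.exp_le_exp.2 hv.1
      calc τ = δ * Real.exp (-2) * (τ / (δ * Real.exp (-2))) := by field_simp
        _ ≤ δ * Real.exp v * (τ / (δ * Real.exp (-2))) := by gcongr
    have key1 : ∀ {φ φ' : Γ → ℝ}, IsC0 φ → IsC0 φ' → (∀ γ, |φ γ - φ' γ| ≤ τ) →
        (∫ v in (-2 : ℝ)..(-1), if A ⊆ cu δ φ' v then (1 : ℝ) else 0) ≤
          (∫ v in (-2 : ℝ)..(-1), if A ⊆ cu δ φ v then (1 : ℝ) else 0) +
            τ / (δ * Real.exp (-2)) := by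
      intro φ φ' hφ hφ' h
      refine shift_cmp (anti1 hδ hφ A) (anti1 hδ hφ' A) (fun u => by split_ifs <;> norm_num)
        (fun u => by split_ifs <;> norm_num) (by positivity) (by norm_num) fun v hv => ?_
      have hsub := cu_close hδ hφ hφ' hτ h (hκ v hv)
      by_cases h1 : A ⊆ cu δ φ' (v + τ / (δ * Real.exp (-2)))
      · rw [if_pos h1, if_pos (h1.trans hsub)]
      · rw [if_neg h1]; split_ifs <;> norm_num
    have key2 : ∀ {φ φ' : Γ → ℝ}, IsC0 φ → IsC0 φ' → (∀ γ, |φ γ - φ' γ| ≤ τ) →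
        (∫ v in (-2 : ℝ)..(-1), if A ⊂ cu δ φ' v then (1 : ℝ) else 0) ≤
          (∫ v in (-2 : ℝ)..(-1), if A ⊂ cu δ φ v then (1 : ℝ) else 0) +
            τ / (δ * Real.exp (-2)) := by
      intro φ φ' hφ hφ' h
      refine shift_cmp (anti2 hδ hφ A) (anti2 hδ hφ' A) (fun u => by split_ifs <;> norm_num)
        (fun u => by split_ifs <;> norm_num) (by positivity) (by norm_num) fun v hv => ?_
      have hsub := cu_close hδ hφ hφ' hτ h (hκ v hv)
      by_cases h1 : A ⊂ cu δ φ' (v + τ / (δ * Real.exp (-2)))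
      · rw [if_pos h1, if_pos (lt_of_lt_of_le h1 hsub)]
      · rw [if_neg h1]; split_ifs <;> norm_num
    have h' : ∀ γ, |φ' γ - φ γ| ≤ τ := fun γ => by rw [abs_sub_comm]; exact h γ
    have a1 := key1 hφ hφ' h
    have a2 := key1 hφ' hφ h'
    have b1 := key2 hφ hφ' h
    have b2 := key2 hφ' hφ h'
    have e : 2 / (δ * Real.exp (-2)) * τ = τ / (δ * Real.exp (-2)) + τ / (δ * Real.exp (-2)) := by
      ring
    rw [Hq_eq hδ hφ, Hq_eq hδ hφ', e, abs_sub_le_iff]
    constructor <;> linarith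
  loc := fun φ φ' hφ hφ' G h h1 h2 => by
    classical
    unfold Hq
    refine intervalIntegral.integral_congr fun u hu => ?_
    rw [uIcc_of_le (by norm_num)] at hu
    simp only [cu_loc hδ hφ hφ' hu.1 h h1 h2]

end

end Pool.Agent.Helper94.UF
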