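import Pool.Agent.Helper94.UF.Defs

/-! Averages of nested finite projections are almost contractive for a given equivalent norm. -/

open Set Filter Topology

namespace Pool.Agent.Helper94.UF

set_option linter.unusedSectionVars false

variable {X : Type*} [NormedAddCommGroup X] [NormedSpace ℝ X] {ι : Type*} (E : UFDD X ι)
variable {p : Seminorm ℝ X} {M : ℝ}

/-- First step: room for a correction. -/
theorem lemA [DecidableEq ι] (hM : 0 < M) (hp : ∀ x, p x ≤ M * ‖x‖) (hq : ∀ x, ‖x‖ ≤ M * p x)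
    (B : Finset ι) {ε : ℝ} (hε : 0 < ε) :
    ∃ B' : Finset ι, B ⊆ B' ∧ ∀ x : X, ∃ u : X,
      E.P (B' \ B) u = u ∧ ‖u‖ ≤ E.C * M * p x ∧ p (E.P B x + u) ≤ (1 + ε) * p x := by
  have hC := E.C0
  set η : ℝ := ε / (2 * M) with hη
  have hη0 : 0 < η := by positivity
  set T : Set X := {x | p x ≤ 1} with hT
  have hbdd : TotallyBounded (E.P B '' T) := by
    refine E.totallyBounded_P B (R := M) fun x hx => ?_
    calc ‖x‖ ≤ M * p x := hq x
      _ ≤ M * 1 := by gcongr; exact hx
      _ = M := mul_one M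
  obtain ⟨t, ht, htf, hcov⟩ := hbdd.exists_subset (Metric.dist_mem_uniformity hη0)
  have ht2 : ∀ y, y ∈ t → ∃ x : X, x ∈ T ∧ E.P B x = y := fun y hy => ht hy
  choose! g hg using ht2
  choose! tl htl using fun x : X => E.exists_tail x hη0
  set B' : Finset ι := B ∪ htf.toFinset.biUnion fun y => tl (g y) with hB'
  refine ⟨B', Finset.subset_union_left, fun x => ?_⟩
  by_cases hx0 : p x = 0
  · refine ⟨0, by simp, by simp [hx0], ?_⟩
    have h1 : ‖x‖ ≤ 0 := by have := hq x; rw [hx0, mul_zero] at this; exact this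
    have h2 : x = 0 := norm_le_zero_iff.1 h1
    rw [h2]; simp
  · have hxpos : 0 < p x := lt_of_le_of_ne (apply_nonneg p x) (Ne.symm hx0)
    set c : ℝ := (p x)⁻¹ with hc
    have hcpos : 0 < c := inv_pos.2 hxpos
    have hcx : c • x ∈ T := by
      simp only [hT, mem_ofPred_eq, map_smul_eq_mul, Real.norm_eq_abs, abs_of_pos hcpos]
      rw [hc, inv_mul_cancel₀ hx0]
    obtain ⟨y, hy, hxy⟩ := mem_iUnion₂.1 (hcov ⟨c • x, hcx, rfl⟩)
    have hgy : p (g y) ≤ 1 := (hg y hy).1
    have hry : E.P B (g y) = y := (hg y hy).2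
    have hgn : ‖g y‖ ≤ M := by
      calc ‖g y‖ ≤ M * p (g y) := hq _
        _ ≤ M * 1 := by gcongr
        _ = M := mul_one M
    have hsub : tl (g y) ⊆ B' := by
      intro γ hγ
      rw [hB', Finset.mem_union]
      exact Or.inr (Finset.mem_biUnion.2 ⟨y, htf.mem_toFinset.2 hy, hγ⟩)
    have hsubB : B ⊆ B' := Finset.subset_union_left
    refine ⟨p x • E.P (B' \ B) (g y), ?_, ?_, ?_⟩
    · rw [map_smul, E.P_P_sub (Finset.Subset.refl _)]
    · rw [norm_smul, Real.norm_eq_abs, abs_of_pos hxpos, mul_comm]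
      refine mul_le_mul_of_nonneg_right ?_ hxpos.le
      exact (E.norm_P_le _ _).trans (by gcongr)
    · have hdec : E.P B x + p x • E.P (B' \ B) (g y) =
          p x • ((E.P B (c • x) - y) + (E.P B' (g y) - g y) + g y) := by
        have hpc : p x * c = 1 := mul_inv_cancel₀ hx0
        rw [E.P_sdiff hsubB, hry, map_smul]
        simp only [smul_add, smul_sub, smul_smul, hpc, one_smul]
        abel
      rw [hdec, map_smul_eq_mul, Real.norm_eq_abs, abs_of_pos hxpos, mul_comm]
      refine mul_le_mul_of_nonneg_right ?_ hxpos.le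
      have h1 : p (E.P B (c • x) - y) ≤ M * η := by
        refine (hp _).trans (mul_le_mul_of_nonneg_left ?_ hM.le)
        have h3 : dist (E.P B (c • x)) y < η := hxy
        rw [dist_eq_norm] at h3
        exact h3.le
      have h2 : p (E.P B' (g y) - g y) ≤ M * η := by
        refine (hp _).trans (mul_le_mul_of_nonneg_left ?_ hM.le)
        rw [norm_sub_rev]
        exact htl (g y) B' hsub
      have h3 : M * η = ε / 2 := by rw [hη]; field_simp
      calc p ((E.P B (c • x) - y) + (E.P B' (g y) - g y) + g y)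
          ≤ p ((E.P B (c • x) - y) + (E.P B' (g y) - g y)) + p (g y) := map_add_le_add p _ _
        _ ≤ (p (E.P B (c • x) - y) + p (E.P B' (g y) - g y)) + p (g y) := by
            gcongr; exact map_add_le_add p _ _
        _ ≤ (M * η + M * η) + 1 := by gcongr
        _ = 1 + ε := by rw [h3]; ring

theorem seminorm_sum_le {α : Type*} (p : Seminorm ℝ X) (t : Finset α) (v : α → X) :
    p (∑ j ∈ t, v j) ≤ ∑ j ∈ t, p (v j) := by
  classical
  induction t using Finset.induction_on with
  | empty => simp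
  | insert a t ha ih =>
    rw [Finset.sum_insert ha, Finset.sum_insert ha]
    exact (map_add_le_add p _ _).trans (by gcongr)

/-- An average of `m` nested projections is an almost contraction. -/
theorem lemB [DecidableEq ι] (hM : 0 < M) (hp : ∀ x, p x ≤ M * ‖x‖) (hq : ∀ x, ‖x‖ ≤ M * p x)
    {ε : ℝ} (hε : 0 < ε) :
    ∃ (N : Finset ι → Finset ι) (m : ℕ), 0 < m ∧ (∀ B, B ⊆ N B) ∧
      ∀ (B : Finset ι) (x : X),
        p ((m : ℝ)⁻¹ • ∑ j ∈ Finset.range m, E.P (N^[j] B) x) ≤ (1 + ε) * p x := by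
  have hC := E.C0
  set ε' : ℝ := ε / 2 with hε'
  have hε'0 : 0 < ε' := by positivity
  choose N hN1 hN2 using fun B : Finset ι => lemA E hM hp hq B hε'0
  set η : ℝ := ε / (2 * (M * (E.C * M))) with hη
  have hη0 : 0 < η := by positivity
  obtain ⟨m, hm, hmavg⟩ := E.exists_avg hη0
  refine ⟨N, m, hm, hN1, fun B x => ?_⟩
  have hm0 : (0 : ℝ) < m := by exact_mod_cast hm
  have hmono : Monotone fun j => N^[j] B := monotone_nat_of_le_succ fun j => by
    rw [Function.iterate_succ_apply']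
    exact hN1 _
  choose u hu1 hu2 hu3 using fun j : ℕ => hN2 (N^[j] B) x
  have hpx := apply_nonneg p x
  have hdisj : ∀ i < m, ∀ j < m, i ≠ j →
      Disjoint (N (N^[i] B) \ N^[i] B) (N (N^[j] B) \ N^[j] B) := by
    have key : ∀ i j, i < j → Disjoint (N (N^[i] B) \ N^[i] B) (N (N^[j] B) \ N^[j] B) := by
      intro i j hij
      rw [Finset.disjoint_left]
      intro γ h1 h2
      have h3 : γ ∈ N^[i + 1] B := by
        rw [Function.iterate_succ_apply']
        exact (Finset.mem_sdiff.1 h1).1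
      exact (Finset.mem_sdiff.1 h2).2 (hmono (Nat.succ_le_of_lt hij) h3)
    intro i _ j _ hij
    rcases lt_or_gt_of_ne hij with h | h
    · exact key i j h
    · exact (key j i h).symm
  have hsum := hmavg (E.C * M * p x) u (fun j => N (N^[j] B) \ N^[j] B) (by positivity) hdisj
    (fun j _ => hu2 j) (fun j _ => hu1 j)
  have hdec : (m : ℝ)⁻¹ • ∑ j ∈ Finset.range m, E.P (N^[j] B) x =
      (m : ℝ)⁻¹ • (∑ j ∈ Finset.range m, (E.P (N^[j] B) x + u j)) -
        (m : ℝ)⁻¹ • ∑ j ∈ Finset.range m, u j := by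
    rw [Finset.sum_add_distrib, smul_add, add_sub_cancel_right]
  rw [hdec]
  have hminv : |(m : ℝ)⁻¹| = (m : ℝ)⁻¹ := abs_of_pos (inv_pos.2 hm0)
  calc p ((m : ℝ)⁻¹ • (∑ j ∈ Finset.range m, (E.P (N^[j] B) x + u j)) -
        (m : ℝ)⁻¹ • ∑ j ∈ Finset.range m, u j)
      ≤ p ((m : ℝ)⁻¹ • (∑ j ∈ Finset.range m, (E.P (N^[j] B) x + u j))) +
        p ((m : ℝ)⁻¹ • ∑ j ∈ Finset.range m, u j) := map_sub_le_add p _ _
    _ = (m : ℝ)⁻¹ * p (∑ j ∈ Finset.range m, (E.P (N^[j] B) x + u j)) +
        (m : ℝ)⁻¹ * p (∑ j ∈ Finset.range m, u j) := by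
        rw [map_smul_eq_mul, map_smul_eq_mul, Real.norm_eq_abs, hminv]
    _ ≤ (m : ℝ)⁻¹ * (∑ _j ∈ Finset.range m, (1 + ε') * p x) +
        (m : ℝ)⁻¹ * (M * (η * m * (E.C * M * p x))) := by
        gcongr
        · exact (seminorm_sum_le p _ _).trans (Finset.sum_le_sum fun j _ => hu3 j)
        · exact (hp _).trans (by gcongr)
    _ = (1 + ε') * p x + (η * (M * (E.C * M))) * p x := by
        rw [Finset.sum_const, Finset.card_range, nsmul_eq_mul]
        field_simp
    _ = (1 + ε) * p x := by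
        rw [hη, hε']
        field_simp
        ring

end Pool.Agent.Helper94.UF
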