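import Pool.Agent.Helper94.UF.Jump
import Pool.Agent.Helper94.CZ.Smooth1

/-! Smoothing functions of the code by adding noise to finitely many coordinates. -/

open scoped ContDiff
open Set Filter Topology MeasureTheory

namespace Pool.Agent.Helper94.UF

open Pool.Agent.Helper94.CZ (law pi_law_ae contDiff_average)

set_option linter.unusedSectionVars false

theorem exp_two_lt : Real.exp 2 < 8 := by
  have h1 := Real.exp_one_lt_d9
  have h2 : Real.exp 2 = Real.exp 1 * Real.exp 1 := by rw [← Real.exp_add]; norm_num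
  have h3 := Real.exp_pos 1
  rw [h2]
  nlinarith

theorem exp_neg_two : 1 / 8 ≤ Real.exp (-2) := by
  rw [Real.exp_neg, one_div]
  exact inv_anti₀ (Real.exp_pos 2) exp_two_lt.le

theorem exp_neg_three : 1 / 32 ≤ Real.exp (-3) := by
  have h1 := Real.exp_one_lt_d9
  have h2 : Real.exp 3 = Real.exp 2 * Real.exp 1 := by rw [← Real.exp_add]; norm_num
  have h3 := Real.exp_pos 1
  have h4 := exp_two_lt
  have h5 : Real.exp 3 ≤ 32 := by rw [h2]; nlinarith
  rw [Real.exp_neg, one_div]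
  exact inv_anti₀ (Real.exp_pos 3) h5

/-- Clipping to `[-η, η]`. -/
def clip (η t : ℝ) : ℝ := max (-η) (min η t)

theorem abs_clip_le {η : ℝ} (hη : 0 < η) (t : ℝ) : |clip η t| ≤ η := by
  rw [abs_le, clip]
  exact ⟨le_max_left _ _, max_le (by linarith) (min_le_left _ _)⟩

theorem clip_of_abs_le {η t : ℝ} (h : |t| ≤ η) : clip η t = t := by
  rw [abs_le] at h
  rw [clip, min_eq_right h.2, max_eq_right h.1]

theorem continuous_clip (η : ℝ) : Continuous (clip η) := by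
  unfold clip
  fun_prop

theorem clip_lip (η s t : ℝ) : |clip η s - clip η t| ≤ |s - t| := by
  have h1 : |max (-η) (min η s) - max (-η) (min η t)| ≤ |min η s - min η t| := by
    have := abs_max_sub_max_le_max (-η) (min η s) (-η) (min η t)
    simpa using this
  have h2 : |min η s - min η t| ≤ |s - t| := by
    have := abs_min_sub_min_le_max η s η t
    simpa using this
  exact h1.trans h2

variable {Γ : Type*}

open Classical in
/-- Adding clipped noise on the finite set `G`. -/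
noncomputable def ph (f : Γ → ℝ) (α : ℝ) (G : Finset Γ) (z : Γ → ℝ) : Γ → ℝ := fun γ =>
  f γ + if γ ∈ G then clip α (z γ) else 0

open Classical in
/-- Extension by zero. -/
noncomputable def ext0 (G : Finset Γ) (a : G → ℝ) : Γ → ℝ := fun γ =>
  if h : γ ∈ G then a ⟨γ, h⟩ else 0

theorem isC0_ext0 (G : Finset Γ) (a : G → ℝ) : IsC0 (ext0 G a) := by
  classical
  intro t ht
  refine G.finite_toSet.subset fun γ hγ => ?_
  by_contra hc
  have : ext0 G a γ = 0 := dif_neg (by simpa using hc)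
  have hγ' : t < |ext0 G a γ| := hγ
  rw [this, abs_zero] at hγ'
  linarith

theorem ph_sub_le {f : Γ → ℝ} {α : ℝ} (hα : 0 < α) (G : Finset Γ) (z : Γ → ℝ) (γ : Γ) :
    |ph f α G z γ - f γ| ≤ α := by
  classical
  unfold ph
  rw [add_sub_cancel_left]
  split_ifs
  · exact abs_clip_le hα _
  · rw [abs_zero]; exact hα.le

theorem isC0_ph {f : Γ → ℝ} (hf : IsC0 f) (α : ℝ) (G : Finset Γ) (z : Γ → ℝ) :
    IsC0 (ph f α G z) := by
  classical
  intro t ht
  refine ((hf t ht).union G.finite_toSet).subset fun γ hγ => ?_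
  by_cases h : γ ∈ G
  · exact Or.inr (by simpa using h)
  · left
    have hγ' : t < |ph f α G z γ| := hγ
    unfold ph at hγ'
    rw [if_neg h, add_zero] at hγ'
    exact hγ'

/-- The infinite product law. -/
noncomputable def nu (Γ : Type*) (η : ℝ) (hη : 0 < η) : Measure (Γ → ℝ) :=
  Measure.infinitePi fun _ : Γ => law η hη

instance nu_prob {η : ℝ} {hη : 0 < η} : IsProbabilityMeasure (nu Γ η hη) := by
  unfold nu; infer_instance

/-- Functions of `φ` which are bounded, Lipschitz at small scale, and only see the large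
coordinates. -/
structure Tame (δ : ℝ) (q : (Γ → ℝ) → ℝ) : Prop where
  nonneg : ∀ φ, IsC0 φ → 0 ≤ q φ
  le_one : ∀ φ, IsC0 φ → q φ ≤ 1
  lip : ∃ R : ℝ, 0 ≤ R ∧ ∀ φ φ', IsC0 φ → IsC0 φ' → ∀ τ, 0 ≤ τ →
    (∀ γ, |φ γ - φ' γ| ≤ τ) → |q φ - q φ'| ≤ R * τ
  loc : ∀ φ φ', IsC0 φ → IsC0 φ' → ∀ G : Finset Γ, (∀ γ ∈ G, φ γ = φ' γ) →
    (∀ γ, γ ∉ G → |φ γ| ≤ δ * Real.exp (-2)) → (∀ γ, γ ∉ G → |φ' γ| ≤ δ * Real.exp (-2)) →
    q φ = q φ'

theorem code_loc {φ φ' : Γ → ℝ} (hφ : IsC0 φ) (hφ' : IsC0 φ') {t : ℝ} (ht : 0 < t)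
    {G : Finset Γ} (h : ∀ γ ∈ G, φ γ = φ' γ) (h1 : ∀ γ, γ ∉ G → |φ γ| ≤ t)
    (h2 : ∀ γ, γ ∉ G → |φ' γ| ≤ t) : code t φ = code t φ' := by
  ext a
  rw [mem_code hφ ht, mem_code hφ' ht]
  rcases a with ⟨γ, n⟩ | i
  · change t < |φ γ| - n ↔ t < |φ' γ| - n
    by_cases hγ : γ ∈ G
    · rw [h γ hγ]
    · have hn : (0 : ℝ) ≤ n := Nat.cast_nonneg n
      have e1 := h1 γ hγ
      have e2 := h2 γ hγ
      constructor <;> intro h3 <;> linarith
  · rfl

theorem cu_loc {δ : ℝ} (hδ : 0 < δ) {φ φ' : Γ → ℝ} (hφ : IsC0 φ) (hφ' : IsC0 φ') {u : ℝ}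
    (hu : -2 ≤ u) {G : Finset Γ} (h : ∀ γ ∈ G, φ γ = φ' γ)
    (h1 : ∀ γ, γ ∉ G → |φ γ| ≤ δ * Real.exp (-2)) (h2 : ∀ γ, γ ∉ G → |φ' γ| ≤ δ * Real.exp (-2)) :
    cu δ φ u = cu δ φ' u := by
  have h3 : δ * Real.exp (-2) ≤ δ * Real.exp u := by gcongr
  exact code_loc hφ hφ' (by positivity) h (fun γ hγ => (h1 γ hγ).trans h3)
    fun γ hγ => (h2 γ hγ).trans h3

section tame

variable {δ : ℝ} {q : (Γ → ℝ) → ℝ}

theorem Tame.continuous (hq : Tame δ q) {G : Finset Γ} {T : (G → ℝ) → (Γ → ℝ)}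
    (hT : ∀ a, IsC0 (T a)) (hl : ∀ a b γ, |T a γ - T b γ| ≤ dist a b) :
    Continuous fun a => q (T a) := by
  obtain ⟨R, hR, h⟩ := hq.lip
  have : LipschitzWith (Real.toNNReal R) fun a => q (T a) := by
    refine LipschitzWith.of_dist_le_mul fun a b => ?_
    rw [Real.coe_toNNReal _ hR, Real.dist_eq]
    exact h _ _ (hT a) (hT b) _ dist_nonneg (hl a b)
  exact this.continuous

open Classical in
/-- Noise depending only on finitely many variables. -/
noncomputable def ph' (f : Γ → ℝ) (α : ℝ) (G : Finset Γ) (a : G → ℝ) : Γ → ℝ := fun γ =>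
  f γ + if h : γ ∈ G then clip α (a ⟨γ, h⟩) else 0

theorem ph_eq (f : Γ → ℝ) (α : ℝ) (G : Finset Γ) (z : Γ → ℝ) :
    ph f α G z = ph' f α G (G.restrict z) := by
  classical
  funext γ
  unfold ph ph'
  by_cases h : γ ∈ G
  · rw [if_pos h, dif_pos h]; rfl
  · rw [if_neg h, dif_neg h]

theorem ph'_lip (f : Γ → ℝ) (α : ℝ) (G : Finset Γ) (a b : G → ℝ) (γ : Γ) :
    |ph' f α G a γ - ph' f α G b γ| ≤ dist a b := by
  classical
  unfold ph'
  by_cases h : γ ∈ G
  · rw [dif_pos h, dif_pos h, add_sub_add_left_eq_sub]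
    refine (clip_lip _ _ _).trans ?_
    rw [← Real.dist_eq]
    exact dist_le_pi_dist _ _ _
  · rw [dif_neg h, dif_neg h, sub_self, abs_zero]
    exact dist_nonneg

theorem isC0_ph' {f : Γ → ℝ} (hf : IsC0 f) (α : ℝ) (G : Finset Γ) (a : G → ℝ) :
    IsC0 (ph' f α G a) := by
  classical
  have : ph' f α G a = ph f α G (ext0 G a) := by
    funext γ
    unfold ph' ph ext0
    by_cases h : γ ∈ G
    · rw [dif_pos h, if_pos h, dif_pos h]
    · rw [dif_neg h, if_neg h]
  rw [this]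
  exact isC0_ph hf α G _

theorem Tame.measurable (hq : Tame δ q) {f : Γ → ℝ} (hf : IsC0 f) (α : ℝ) (G : Finset Γ) :
    Measurable fun z => q (ph f α G z) := by
  have h1 : (fun z => q (ph f α G z)) = (fun a => q (ph' f α G a)) ∘ G.restrict := by
    funext z
    rw [Function.comp_apply, ph_eq]
  rw [h1]
  exact (hq.continuous (isC0_ph' hf α G) (ph'_lip f α G)).measurable.comp
    (Finset.measurable_restrict (X := fun _ : Γ => ℝ) G)

variable {η : ℝ} {hη : 0 < η}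

theorem Tame.integrable (hq : Tame δ q) {f : Γ → ℝ} (hf : IsC0 f) (α : ℝ) (G : Finset Γ) :
    Integrable (fun z => q (ph f α G z)) (nu Γ η hη) := by
  refine Integrable.of_bound (hq.measurable hf α G).aestronglyMeasurable 1 (ae_of_all _ fun z => ?_)
  rw [Real.norm_eq_abs, abs_of_nonneg (hq.nonneg _ (isC0_ph hf α G z))]
  exact hq.le_one _ (isC0_ph hf α G z)

variable {X : Type*} [NormedAddCommGroup X] [NormedSpace ℝ X]
variable {k : WithTop ℕ∞} (K : EK k X Γ) (hδ : 0 < δ)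

/-- The coordinates of size larger than `δ/16`. -/
noncomputable def Gx (x : X) : Finset Γ := (K.isC0 x (δ / 16) (by positivity)).toFinset

theorem mem_Gx {x : X} {γ : Γ} : γ ∈ Gx K hδ x ↔ δ / 16 < |K.Φ x γ| := by
  rw [Gx, Set.Finite.mem_toFinset]; rfl

theorem notMem_Gx {x : X} {γ : Γ} (h : γ ∉ Gx K hδ x) : |K.Φ x γ| ≤ δ / 16 := by
  rw [mem_Gx] at h; exact not_lt.1 h

/-- The smoothing of a tame function. -/
noncomputable def sm (q : (Γ → ℝ) → ℝ) (x : X) : ℝ :=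
  ∫ z, q (ph (K.Φ x) (δ / 16) (Gx K hδ x) z) ∂(nu Γ (δ / 16) (by positivity))

theorem ph_small {x : X} {G : Finset Γ} {γ : Γ} (h : γ ∉ Gx K hδ x) (z : Γ → ℝ) :
    |ph (K.Φ x) (δ / 16) G z γ| ≤ δ * Real.exp (-2) := by
  have h1 := notMem_Gx K hδ h
  have h2 := ph_sub_le (f := K.Φ x) (show 0 < δ / 16 by positivity) G z γ
  have h3 : |ph (K.Φ x) (δ / 16) G z γ| ≤ |ph (K.Φ x) (δ / 16) G z γ - K.Φ x γ| + |K.Φ x γ| := by
    have := abs_add_le (ph (K.Φ x) (δ / 16) G z γ - K.Φ x γ) (K.Φ x γ)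
    simpa using this
  have h4 := exp_neg_two
  nlinarith

theorem Tame.ph_congr (hq : Tame δ q) {x : X} {G G' : Finset Γ} (hG : Gx K hδ x ⊆ G)
    (hG' : Gx K hδ x ⊆ G') (z : Γ → ℝ) :
    q (ph (K.Φ x) (δ / 16) G z) = q (ph (K.Φ x) (δ / 16) G' z) := by
  classical
  refine hq.loc _ _ (isC0_ph (K.isC0 x) _ _ _) (isC0_ph (K.isC0 x) _ _ _) (Gx K hδ x) ?_
    (fun γ h => ph_small K hδ h z) (fun γ h => ph_small K hδ h z)
  intro γ hγ
  unfold ph
  rw [if_pos (hG hγ), if_pos (hG' hγ)]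

theorem sm_eq (hq : Tame δ q) {x : X} {G : Finset Γ} (hG : Gx K hδ x ⊆ G) :
    sm K hδ q x = ∫ z, q (ph (K.Φ x) (δ / 16) G z) ∂(nu Γ (δ / 16) (by positivity)) := by
  rw [sm]
  exact integral_congr_ae (ae_of_all _ fun z => hq.ph_congr K hδ subset_rfl hG z)

theorem ext0_lip (G : Finset Γ) (a b : G → ℝ) (γ : Γ) : |ext0 G a γ - ext0 G b γ| ≤ dist a b := by
  classical
  unfold ext0
  by_cases h : γ ∈ G
  · rw [dif_pos h, dif_pos h, ← Real.dist_eq]
    exact dist_le_pi_dist _ _ _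
  · rw [dif_neg h, dif_neg h, sub_self, abs_zero]
    exact dist_nonneg

/-- The smoothing of a tame function is `C^k`. -/
theorem sm_contDiff (hδ : 0 < δ) (hk : k ≤ ∞) (hq : Tame δ q) :
    ContDiff ℝ k (sm K hδ q) := by
  classical
  rw [contDiff_iff_contDiffAt]
  intro x0
  have hfin := K.isC0 x0 (δ / 32) (by positivity)
  set G : Finset Γ := hfin.toFinset with hG
  have hGmem : ∀ γ, γ ∉ G → |K.Φ x0 γ| ≤ δ / 32 := fun γ hγ => by
    rw [hG, Set.Finite.mem_toFinset] at hγ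
    exact not_lt.1 hγ
  set g : (G → ℝ) → ℝ := fun a => q (ext0 G a) with hg
  have hgc : Continuous g := hq.continuous (isC0_ext0 G) (ext0_lip G)
  have hα : 0 < δ / 16 := by positivity
  have hsm := (contDiff_average hα hgc).of_le hk
  set r : X → (G → ℝ) := fun x γ => K.Φ x γ with hr
  have hrc : ContDiff ℝ k r := contDiff_pi.2 fun γ => K.smooth γ
  have hcomp : ContDiff ℝ k fun x : X =>
      ∫ z, g (r x + z) ∂(Measure.pi fun _ : G => law (δ / 16) hα) := hsm.comp hrc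
  refine (hcomp.contDiffAt (x := x0)).congr_of_eventuallyEq ?_
  have hL := K.L0
  filter_upwards [Metric.closedBall_mem_nhds x0 (show 0 < δ / (32 * K.L) by positivity)] with x hx
  have hx' : ‖x - x0‖ ≤ δ / (32 * K.L) := by rwa [mem_closedBall_iff_norm] at hx
  have hx2 : ∀ γ, |K.Φ x γ - K.Φ x0 γ| ≤ δ / 32 := fun γ => by
    refine (K.upper x x0 γ).trans ?_
    calc K.L * ‖x - x0‖ ≤ K.L * (δ / (32 * K.L)) := by gcongr
      _ = δ / 32 := by field_simp
  have hout : ∀ γ, γ ∉ G → |K.Φ x γ| ≤ δ / 16 := fun γ hγ => by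
    have h1 := hGmem γ hγ
    have h2 := abs_sub_abs_le_abs_sub (K.Φ x γ) (K.Φ x0 γ)
    have h3 := hx2 γ
    linarith
  have hsub : Gx K hδ x ⊆ G := by
    intro γ hγ
    by_contra hc
    exact absurd ((mem_Gx K hδ).1 hγ) (not_lt.2 (hout γ hc))
  rw [sm_eq K hδ hq hsub]
  have h1 : ∀ z : Γ → ℝ, q (ph (K.Φ x) (δ / 16) G z) =
      (fun a : G → ℝ => g (r x + fun γ => clip (δ / 16) (a γ))) (G.restrict z) := by
    intro z
    simp only [hg]
    refine hq.loc _ _ (isC0_ph (K.isC0 x) _ _ _) (isC0_ext0 _ _) G ?_ ?_ ?_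
    · intro γ hγ
      unfold ph ext0
      rw [if_pos hγ, dif_pos hγ]
      rfl
    · intro γ hγ
      have h4 := exp_neg_two
      unfold ph
      rw [if_neg hγ, add_zero]
      have := hout γ hγ
      nlinarith
    · intro γ hγ
      unfold ext0
      rw [dif_neg hγ, abs_zero]
      positivity
  simp only [h1]
  have hmeas : Measurable fun a : G → ℝ => g (r x + fun γ => clip (δ / 16) (a γ)) := by
    refine (hgc.comp (continuous_const.add ?_)).measurable
    exact continuous_pi fun γ => (continuous_clip _).comp (continuous_apply γ)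
  have hmap : ∫ z, (fun a : G → ℝ => g (r x + fun γ => clip (δ / 16) (a γ)))
      ((G.restrict : (Γ → ℝ) → (G → ℝ)) z) ∂(nu Γ (δ / 16) hα) =
      ∫ a, (fun a : G → ℝ => g (r x + fun γ => clip (δ / 16) (a γ))) a
        ∂(Measure.map (G.restrict : (Γ → ℝ) → (G → ℝ)) (nu Γ (δ / 16) hα)) :=
    (integral_map (Finset.measurable_restrict (X := fun _ : Γ => ℝ) G).aemeasurable
      hmeas.aestronglyMeasurable).symm
  refine hmap.trans ?_
  rw [nu, Measure.infinitePi_map_restrict]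
  refine integral_congr_ae ?_
  filter_upwards [pi_law_ae hα (ι := G)] with a ha
  have : (fun γ => clip (δ / 16) (a γ)) = a := funext fun γ => clip_of_abs_le (ha γ)
  rw [this]

end tame

end Pool.Agent.Helper94.UF
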